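import Pool.Agent.Lib_helper15.AQ.PFM.Defs
import Pool.Agent.Lib_helper18.AQ.KF.PA4
import Pool.Agent.Lib_helper18.PENKF.PA4
import Pool.Agent.Lib_helper15.PFMF.F1


set_option autoImplicit false

namespace Pool.Agent.AQ.PFM

open Finset Pool.Agent.PENT
open Pool.Agent.PENK (PolyK Bas nr dl Rf Wts prs ind lw PerV PerP mL EquiF ich L1)
open Pool.Agent.PFM (DE ph LocS Bo Un f1_ind f1_Rf' f1_le ph_mem_pr)
open Pool.Agent.AQ.PENK (FD VV mV EQQ Sp nz mV_mono mV_const mV_one)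

variable [FD]

variable {K : ℕ} [NeZero K]

theorem v1_per_pr (W : Wts K) (P0 : ℕ) (vq : Finset (Fin K)) (p : ℕ) :
    PerP p (fun u => v1 W P0 vq u p) := by
  intro u u' h
  have e : (fun R => 1 - ph W P0 vq u p R) = fun R => 1 - ph W P0 vq u' p R := by
    funext R
    congr 1
    unfold ph
    exact Finset.prod_congr rfl fun k _ => f1_ind (f1_Rf' R (h k).1 (h k).2) _
  simp only [v1, e]

theorem f1_sum {p : ℕ} (s : Finset (Fin K)) (h : Fin K → Bas → ℝ) :
    mV p (fun r => ∑ i ∈ s, h i r) = ∑ i ∈ s, mV p (h i) := by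
  unfold mV
  rw [Finset.sum_comm, Finset.sum_div]

theorem v1_bounds_pr (W : Wts K) (hW : W.Ok) (P0 : ℕ) (vq : Finset (Fin K)) (u : PolyK K) {p : ℕ}
    (hp : p.Prime) (h2 : FD.N0 < p) (hu : ∀ i ∈ vq, ¬ ((p : ℤ) ∣ (u i).1 ∧ (p : ℤ) ∣ (u i).2)) :
    0 ≤ v1 W P0 vq u p ∧ v1 W P0 vq u p ≤ 2 * K / ((p : ℝ) + 1) := by
  have hp0 : (0 : ℝ) < (p : ℝ) + 1 := by positivity
  constructor
  · have h := mV_mono (p := p) (h := fun _ => 0) (h' := fun R => 1 - ph W P0 vq u p R)
      (fun R => by have := (ph_mem_pr W hW P0 vq u p R).2; simpa using this)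
    rw [mV_const hp h2] at h
    exact h
  · have h := mV_mono (p := p) (h := fun R => 1 - ph W P0 vq u p R)
      (h' := fun R => ∑ i ∈ vq, ich ((p : ℤ) ∣ Rf R (u i))) (f1_le W hW P0 vq u p)
    rw [f1_sum vq (fun i R => ich ((p : ℤ) ∣ Rf R (u i)))] at h
    refine h.trans ?_
    have h3 : ∀ i ∈ vq, mV p (fun R => ich ((p : ℤ) ∣ Rf R (u i))) ≤ 2 / ((p : ℝ) + 1) := by
      intro i hi
      rw [mV_one hp h2 (u i) (hu i hi)]
      split_ifs
      · exact le_rfl
      · positivity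
    refine (Finset.sum_le_card_nsmul vq _ _ h3).trans ?_
    rw [nsmul_eq_mul]
    have h4 : (vq.card : ℝ) ≤ K := by
      have := Finset.card_le_univ vq
      rw [Fintype.card_fin] at this
      exact_mod_cast this
    calc (vq.card : ℝ) * (2 / ((p : ℝ) + 1)) ≤ K * (2 / ((p : ℝ) + 1)) :=
          mul_le_mul_of_nonneg_right h4 (by positivity)
      _ = 2 * K / ((p : ℝ) + 1) := by ring

theorem v1_mem_pr (W : Wts K) (hW : W.Ok) (P0 : ℕ) (vq : Finset (Fin K)) (u : PolyK K) {p : ℕ}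
    (hp : p.Prime) (h2 : FD.N0 < p) : 0 ≤ v1 W P0 vq u p ∧ v1 W P0 vq u p ≤ 1 := by
  constructor
  · have h := mV_mono (p := p) (h := fun _ => 0) (h' := fun R => 1 - ph W P0 vq u p R)
      (fun R => by have := (ph_mem_pr W hW P0 vq u p R).2; simpa using this)
    rw [mV_const hp h2] at h
    exact h
  · have h := mV_mono (p := p) (h := fun R => 1 - ph W P0 vq u p R) (h' := fun _ => 1)
      (fun R => by have := (ph_mem_pr W hW P0 vq u p R).1; simpa using this)
    rw [mV_const hp h2] at h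
    exact h

end Pool.Agent.AQ.PFM

namespace Pool.Agent.AQ.PFM

theorem v1_per : type_of% @v1_per_pr := @v1_per_pr
theorem v1_bounds : type_of% @v1_bounds_pr := @v1_bounds_pr
theorem v1_mem : type_of% @v1_mem_pr := @v1_mem_pr

end Pool.Agent.AQ.PFM
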