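import Pool.Agent.Lib_helper15.AQ.PFM.Defs
import Pool.Agent.Lib_helper15.PFMF.F1
import Pool.Agent.Lib_helper15.PFMF.F2
import Pool.Agent.Lib_helper18.AQ.KF.PG1
import Pool.Agent.Lib_helper18.PENKF.PG1
import Pool.Agent.Lib_helper18.AQ.KF.PA4
import Pool.Agent.Lib_helper18.PENKF.PA4
import Pool.Agent.Lib_helper15.PFMF.F3
import Pool.Agent.Lib_helper15.AQ.PFMF.F1
import Pool.Agent.Lib_helper15.AQ.PFMF.F2


/-! Block F3 (project PENT, part FM) -/

set_option autoImplicit false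

namespace Pool.Agent.AQ.PFM

open Finset Pool.Agent.PENT
open Pool.Agent.PENK (PolyK Bas nr dl Rf Wts prs ind lw PerV PerP mL EquiF ich L1)
open Pool.Agent.PENK (mL_mono mL_const mL_add mL_smul)
open Pool.Agent.PFM (DE ph LocS Bo Un)
open Pool.Agent.AQ.PENK (FD VV mV EQQ Sp nz)

variable [FD]

variable {K : ℕ} [NeZero K]

/-- the off-diagonal double sum -/
noncomputable def f3_off {ι : Type} [DecidableEq ι] (J : Finset ι) (F : ι → ι → ℝ) : ℝ :=
  ∑ i ∈ J, ∑ j ∈ J, if i = j then 0 else F i j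

theorem f3_off_insert {ι : Type} [DecidableEq ι] (J : Finset ι) (x : ι → ℝ) (i : ι)
    (hi : i ∉ J) : f3_off (insert i J) (fun a b => x a * x b) =
      f3_off J (fun a b => x a * x b) + 2 * (x i * ∑ j ∈ J, x j) := by
  unfold f3_off
  have h1 : ∀ k ∈ J, (∑ j ∈ insert i J, if k = j then 0 else x k * x j) =
      x k * x i + ∑ j ∈ J, if k = j then 0 else x k * x j := by
    intro k hk
    rw [Finset.sum_insert hi, if_neg (by rintro rfl; exact hi hk)]
  rw [Finset.sum_insert hi, Finset.sum_congr rfl h1, Finset.sum_insert hi, if_pos rfl,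
    Finset.sum_add_distrib]
  have h2 : (∑ j ∈ J, if i = j then 0 else x i * x j) = x i * ∑ j ∈ J, x j := by
    rw [Finset.mul_sum]
    apply Finset.sum_congr rfl
    intro j hj
    rw [if_neg (by rintro rfl; exact hi hj)]
  have h3 : ∑ k ∈ J, x k * x i = x i * ∑ j ∈ J, x j := by
    rw [Finset.mul_sum]
    apply Finset.sum_congr rfl
    intro j _
    ring
  rw [h2, h3]
  ring

theorem f3_bonf {ι : Type} [DecidableEq ι] (J : Finset ι) (x : ι → ℝ)
    (h : ∀ j ∈ J, 0 ≤ x j ∧ x j ≤ 1) :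
    0 ≤ ∏ j ∈ J, (1 - x j) ∧ ∏ j ∈ J, (1 - x j) ≤ 1 ∧ 1 - ∑ j ∈ J, x j ≤ ∏ j ∈ J, (1 - x j) ∧
      ∏ j ∈ J, (1 - x j) ≤ 1 - ∑ j ∈ J, x j + f3_off J (fun i j => x i * x j) := by
  induction J using Finset.induction_on with
  | empty => simp [f3_off]
  | insert i J hi ih =>
    obtain ⟨h1, h2, h3, h4⟩ := ih (fun j hj => h j (Finset.mem_insert_of_mem hj))
    have hx := h i (Finset.mem_insert_self i J)
    have hs : 0 ≤ ∑ j ∈ J, x j :=
      Finset.sum_nonneg (fun j hj => (h j (Finset.mem_insert_of_mem hj)).1)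
    rw [Finset.prod_insert hi, Finset.sum_insert hi, f3_off_insert J x i hi]
    refine ⟨mul_nonneg (by linarith [hx.2]) h1, ?_, ?_, ?_⟩
    · nlinarith [hx.1, hx.2]
    · nlinarith [hx.1, hx.2, mul_nonneg hx.1 hs]
    · nlinarith [hx.1, hx.2, mul_nonneg hx.1 hs, mul_nonneg hx.1 h1]

theorem f3_dn {p : ℕ} (u : PolyK K) (j : Fin K) : p ∣ dn u j ↔ (p : ℤ) ∣ dl u j := by
  unfold dn
  exact Int.natCast_dvd.symm

/-- the indicator of a vanishing edge -/
noncomputable def f3_A (p : ℕ) (j : Fin K) (u : PolyK K) : ℝ := ich ((p : ℤ) ∣ dl u j)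

theorem f3_A_mem (p : ℕ) (j : Fin K) (u : PolyK K) : 0 ≤ f3_A p j u ∧ f3_A p j u ≤ 1 := by
  unfold f3_A ich
  split_ifs <;> norm_num

theorem f3_ich_nonneg (a : Prop) : 0 ≤ ich a := by
  unfold ich
  split_ifs <;> norm_num

theorem f3_ich_and (a b : Prop) : ich (a ∧ b) = ich a * ich b := by
  unfold ich
  by_cases h1 : a <;> by_cases h2 : b <;> simp [h1, h2]

theorem f3_DE_iff {p : ℕ} (hp : p.Prime) (fe : Finset (Fin K)) (u : PolyK K) :
    p ∣ DE fe u ↔ ∃ j ∈ fe, (p : ℤ) ∣ dl u j := by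
  unfold DE
  rw [Prime.dvd_finsetProd_iff hp.prime]
  simp only [f3_dn]

theorem f3_DE_abs (fe : Finset (Fin K)) (u : PolyK K) :
    DE fe u = (∏ j ∈ fe, dl u j).natAbs := by
  unfold DE Pool.Agent.PENK.dn
  exact (map_prod Int.natAbsHom (fun j => dl u j) fe).symm

/-- the weights of the events -/
noncomputable def f3_a (W : Wts K) (P0 p : ℕ) (j : Fin K) : ℝ :=
  if p ≤ P0 ∨ ¬ Sp p then 1 else 1 - 2 * W.al j

omit [NeZero K] in
theorem f3_card (s : Finset (Fin K)) : ((s.card : ℕ) : ℝ) ≤ K := by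
  have := Finset.card_le_univ s
  rw [Fintype.card_fin] at this
  exact_mod_cast this

theorem f3_a_mem (W : Wts K) (hW : W.Ok) (P0 p : ℕ) (j : Fin K) :
    0 ≤ f3_a W P0 p j ∧ f3_a W P0 p j ≤ 1 := by
  unfold f3_a
  have h1 := hW.al0 j
  have h2 := hW.al1 j
  split_ifs
  · norm_num
  · constructor <;> linarith

theorem f3_gi_mem (W : Wts K) (hW : W.Ok) (P0 p : ℕ) (i : Fin K) :
    0 ≤ W.gi P0 p i ∧ W.gi P0 p i ≤ 1 := by
  unfold Wts.gi
  split_ifs
  · exact ⟨hW.bo0 i, hW.bo1 i⟩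
  · exact ⟨(hW.be0 i).le, hW.be1 i⟩

/-- the vertex part of the density -/
noncomputable def f3_M (W : Wts K) (vq : Finset (Fin K)) (P0 p : ℕ) : ℝ :=
  if ¬ Sp p then 0 else 2 * ∑ i ∈ vq, (1 - W.gi P0 p i)

theorem f3_M_mem (W : Wts K) (hW : W.Ok) (vq : Finset (Fin K)) (P0 p : ℕ) :
    0 ≤ f3_M W vq P0 p ∧ f3_M W vq P0 p ≤ 2 * K := by
  unfold f3_M
  have hs0 : 0 ≤ ∑ k ∈ vq, (1 - W.gi P0 p k) :=
    Finset.sum_nonneg (fun k _ => by linarith [(f3_gi_mem W hW P0 p k).2])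
  have hs1 : ∑ k ∈ vq, (1 - W.gi P0 p k) ≤ K := by
    calc ∑ k ∈ vq, (1 - W.gi P0 p k) ≤ ∑ k ∈ vq, (1 : ℝ) :=
          Finset.sum_le_sum (fun k _ => by linarith [(f3_gi_mem W hW P0 p k).1])
      _ = (vq.card : ℝ) := by simp
      _ ≤ K := f3_card _
  by_cases h : Sp p
  · rw [if_neg (not_not.2 h)]
    constructor <;> linarith
  · rw [if_pos h]
    constructor
    · norm_num
    · positivity

omit [NeZero K] in
theorem f3_bd (fe vq : Finset (Fin K)) (W : Wts K) (P0 p : ℕ) :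
    bd fe vq W P0 p = ∑ j ∈ fe, f3_a W P0 p j + f3_M W vq P0 p := by
  unfold bd f3_M f3_a
  by_cases h3 : ¬ Sp p
  · have h4 : ∀ j ∈ fe, (if p ≤ P0 ∨ ¬ Sp p then (1 : ℝ) else 1 - 2 * W.al j) = 1 :=
      fun j _ => if_pos (Or.inr h3)
    rw [if_pos h3, if_pos h3, Finset.sum_congr rfl h4, Finset.sum_const, nsmul_eq_mul, mul_one,
      add_zero]
  · rw [if_neg h3, if_neg h3]
    by_cases hP : p ≤ P0
    · unfold Wts.gi
      simp only [hP, true_or, if_true, Finset.sum_const, nsmul_eq_mul, mul_one]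
    · unfold Wts.gi
      simp only [hP, h3, or_self, if_false]

/-- block F3, first part -/
theorem Ph_per_pr (W : Wts K) (P0 : ℕ) (fe vq : Finset (Fin K)) (p : ℕ) :
    PerP p (fun u => Ph W P0 fe vq u p) := by
  intro u u' huu
  have hc : ∀ x : ℤ, (p : ℤ) ∣ x ↔ (x : ZMod p) = 0 := fun x =>
    (ZMod.intCast_zmod_eq_zero_iff_dvd x p).symm
  have h1 : ∀ j, (((u j).1 : ℤ) : ZMod p) = (((u' j).1 : ℤ) : ZMod p) := by
    intro j
    have := (hc _).1 (huu j).1
    push_cast at this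
    exact sub_eq_zero.1 this
  have h2 : ∀ j, (((u j).2 : ℤ) : ZMod p) = (((u' j).2 : ℤ) : ZMod p) := by
    intro j
    have := (hc _).1 (huu j).2
    push_cast at this
    exact sub_eq_zero.1 this
  have hdl : ∀ j, ((dl u j : ℤ) : ZMod p) = ((dl u' j : ℤ) : ZMod p) := by
    intro j
    unfold dl dt
    push_cast
    rw [h1, h2, h1, h2]
  have hdn : ∀ j, p ∣ dn u j ↔ p ∣ dn u' j := by
    intro j
    rw [f3_dn, f3_dn, hc, hc, hdl]
  have hDE : p ∣ DE fe u ↔ p ∣ DE fe u' := by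
    rw [f3_DE_abs, f3_DE_abs, ← Int.natCast_dvd, ← Int.natCast_dvd, hc, hc]
    push_cast
    simp only [hdl]
  have hv := v1_per W P0 vq p u u' huu
  simp only at hv ⊢
  unfold Ph
  simp only [hDE, hdn, hv]

/-- block F3, second part -/
theorem Ph_mem_pr (W : Wts K) (hW : W.Ok) (P0 : ℕ) (fe vq : Finset (Fin K)) {p : ℕ} (hp : p.Prime)
    (h2 : FD.N0 < p) (u : PolyK K) : 0 ≤ Ph W P0 fe vq u p ∧ Ph W P0 fe vq u p ≤ 1 := by
  unfold Ph
  split_ifs with h1 h3
  · norm_num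
  · have hm : ∀ j ∈ fe, 0 ≤ (if p ∣ dn u j then 2 * W.al j else 1) ∧
        (if p ∣ dn u j then 2 * W.al j else 1) ≤ 1 := by
      intro j _
      have a0 := hW.al0 j
      have a1 := hW.al1 j
      split_ifs
      · constructor <;> linarith
      · norm_num
    exact ⟨Finset.prod_nonneg (fun j hj => (hm j hj).1),
      Finset.prod_le_one (fun j hj => (hm j hj).1) (fun j hj => (hm j hj).2)⟩
  · have := v1_mem W hW P0 vq u hp h2
    constructor <;> linarith [this.1, this.2]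

theorem f3_prod (W : Wts K) (fe : Finset (Fin K)) (P0 p : ℕ) (hc : ¬ (p ≤ P0 ∨ ¬ Sp p))
    (u : PolyK K) :
    ∏ j ∈ fe, (if p ∣ dn u j then 2 * W.al j else 1) =
      ∏ j ∈ fe, (1 - f3_a W P0 p j * f3_A p j u) := by
  apply Finset.prod_congr rfl
  intro j _
  unfold f3_a f3_A ich
  rw [if_neg hc]
  by_cases h : p ∣ dn u j
  · rw [if_pos h, if_pos ((f3_dn u j).1 h)]
    ring
  · rw [if_neg h, if_neg (fun h' => h ((f3_dn u j).2 h'))]
    ring

omit [NeZero K] in
theorem f3_off_nonneg (J : Finset (Fin K)) (F : Fin K → Fin K → ℝ) (hF : ∀ i j, 0 ≤ F i j) :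
    0 ≤ f3_off J F := by
  unfold f3_off
  apply Finset.sum_nonneg
  intro i _
  apply Finset.sum_nonneg
  intro j _
  split_ifs
  · exact le_rfl
  · exact hF i j

/-- the pointwise lower bound on the bad part -/
theorem f3_point (W : Wts K) (hW : W.Ok) (fe vq : Finset (Fin K)) (P0 : ℕ) {p : ℕ} (hp : p.Prime)
    (u : PolyK K) :
    (∑ j ∈ fe, f3_a W P0 p j * f3_A p j u -
        f3_off fe (fun i j => f3_A p i u * f3_A p j u)) +
      (if p ∣ DE fe u then 0 else v1 W P0 vq u p) ≤ 1 - Ph W P0 fe vq u p := by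
  classical
  by_cases hb : p ∣ DE fe u
  · rw [if_pos hb, add_zero]
    have hx : ∀ j ∈ fe, 0 ≤ f3_a W P0 p j * f3_A p j u ∧ f3_a W P0 p j * f3_A p j u ≤ 1 := by
      intro j _
      have h1 := f3_a_mem W hW P0 p j
      have h2 := f3_A_mem p j u
      exact ⟨mul_nonneg h1.1 h2.1, mul_le_one₀ h1.2 h2.1 h2.2⟩
    have hxA : ∀ j, f3_a W P0 p j * f3_A p j u ≤ f3_A p j u := by
      intro j
      have h1 := f3_a_mem W hW P0 p j
      have h2 := f3_A_mem p j u
      nlinarith [h1.1, h1.2, h2.1]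
    have hoff : f3_off fe (fun i j => (f3_a W P0 p i * f3_A p i u) *
        (f3_a W P0 p j * f3_A p j u)) ≤ f3_off fe (fun i j => f3_A p i u * f3_A p j u) := by
      unfold f3_off
      apply Finset.sum_le_sum
      intro i hi
      apply Finset.sum_le_sum
      intro j hj
      split_ifs
      · exact le_rfl
      · exact mul_le_mul (hxA i) (hxA j) (hx j hj).1 (f3_A_mem p i u).1
    obtain ⟨b1, b2, b3, b4⟩ := f3_bonf fe (fun j => f3_a W P0 p j * f3_A p j u) hx
    have hph : Ph W P0 fe vq u p ≤ ∏ j ∈ fe, (1 - f3_a W P0 p j * f3_A p j u) := by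
      unfold Ph
      rw [if_pos hb]
      by_cases hc : p ≤ P0 ∨ ¬ Sp p
      · rw [if_pos hc]
        exact b1
      · rw [if_neg hc, f3_prod W fe P0 p hc u]
    linarith
  · rw [if_neg hb]
    have h1 : ∀ j ∈ fe, f3_A p j u = 0 := by
      intro j hj
      unfold f3_A ich
      rw [if_neg]
      intro h
      apply hb
      rw [f3_DE_iff hp]
      exact ⟨j, hj, h⟩
    have e1 : ∑ j ∈ fe, f3_a W P0 p j * f3_A p j u = 0 :=
      Finset.sum_eq_zero (fun j hj => by rw [h1 j hj, mul_zero])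
    have hoff0 : 0 ≤ f3_off fe (fun i j => f3_A p i u * f3_A p j u) :=
      f3_off_nonneg fe _ (fun i j => mul_nonneg (f3_A_mem p i u).1 (f3_A_mem p j u).1)
    have hph : 1 - Ph W P0 fe vq u p = v1 W P0 vq u p := by
      unfold Ph
      rw [if_neg hb]
      ring
    rw [hph, e1]
    linarith

omit [NeZero K] in
theorem f3_mL_sum {ι : Type} (s : Finset ι) (L : Finset (PolyK K)) (F : ι → PolyK K → ℝ) :
    mL L (fun u => ∑ i ∈ s, F i u) = ∑ i ∈ s, mL L (F i) := by
  unfold mL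
  rw [Finset.sum_comm, Finset.sum_div]

omit [NeZero K] in
theorem f3_mL_sub {L : Finset (PolyK K)} (h h' : PolyK K → ℝ) :
    mL L (fun r => h r - h' r) = mL L h - mL L h' := by
  unfold mL
  rw [Finset.sum_sub_distrib, sub_div]

theorem f3_mL_N {fe vq : Finset (Fin K)} {p : ℕ} {L : Finset (PolyK K)} {C0 : ℝ} (hC0 : 0 ≤ C0)
    (hL : LocS fe vq p L C0) :
    0 ≤ mL L (fun u => ∑ j ∈ fe, f3_A p j u) ∧
      mL L (fun u => ∑ j ∈ fe, f3_A p j u) ≤ K * (C0 / p) := by
  constructor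
  · unfold mL
    apply div_nonneg _ (Nat.cast_nonneg _)
    exact Finset.sum_nonneg (fun u _ => Finset.sum_nonneg (fun j _ => (f3_A_mem p j u).1))
  · rw [f3_mL_sum]
    calc ∑ j ∈ fe, mL L (f3_A p j) ≤ ∑ j ∈ fe, C0 / (p : ℝ) :=
          Finset.sum_le_sum (fun j hj => hL.a' j hj)
      _ = (fe.card : ℝ) * (C0 / p) := by rw [Finset.sum_const, nsmul_eq_mul]
      _ ≤ K * (C0 / p) := mul_le_mul_of_nonneg_right (f3_card _) (by positivity)

theorem f3_mL_off {L : Finset (PolyK K)} (hL : L.Nonempty) (J : Finset (Fin K))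
    (F : Fin K → Fin K → PolyK K → ℝ) (c : ℝ) (hc : 0 ≤ c)
    (h : ∀ i ∈ J, ∀ j ∈ J, i ≠ j → mL L (F i j) ≤ c) :
    mL L (fun u => f3_off J (fun i j => F i j u)) ≤ K * (K * c) := by
  unfold f3_off
  rw [f3_mL_sum]
  have h1 : ∀ i ∈ J, mL L (fun u => ∑ j ∈ J, if i = j then 0 else F i j u) ≤ K * c := by
    intro i hi
    rw [f3_mL_sum]
    calc ∑ j ∈ J, mL L (fun u => if i = j then 0 else F i j u) ≤ ∑ j ∈ J, c := by
          apply Finset.sum_le_sum
          intro j hj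
          by_cases hij : i = j
          · simp only [hij, if_true]
            rw [mL_const hL]
            exact hc
          · simp only [if_neg hij]
            exact h i hi j hj hij
      _ = (J.card : ℝ) * c := by rw [Finset.sum_const, nsmul_eq_mul]
      _ ≤ K * c := mul_le_mul_of_nonneg_right (f3_card _) hc
  calc _ ≤ ∑ i ∈ J, (K : ℝ) * c := Finset.sum_le_sum h1
    _ = (J.card : ℝ) * (K * c) := by rw [Finset.sum_const, nsmul_eq_mul]
    _ ≤ K * (K * c) := mul_le_mul_of_nonneg_right (f3_card _) (by positivity)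

/-- the correction term of the vertices -/
noncomputable def f3_S (fe vq : Finset (Fin K)) (p : ℕ) (u : PolyK K) : ℝ :=
  f3_off vq (fun i j => ich ((∀ j ∈ fe, ¬ (p : ℤ) ∣ dl u j) ∧ (p : ℤ) ∣ dt (u i) (u j)))

/-- block F3, third part -/
theorem c1_local_pr (W : Wts K) (hW : W.Ok) (fe vq : Finset (Fin K)) (C0 : ℝ) (hC0 : 0 ≤ C0) :
    ∃ C1 : ℝ, 0 ≤ C1 ∧ ∀ (P0 p : ℕ), p.Prime → FD.N0 < p → ∀ L : Finset (PolyK K),
    LocS fe vq p L C0 →
    bd fe vq W P0 p / p - C1 / (p : ℝ) ^ 2 ≤ mL L (fun u => 1 - Ph W P0 fe vq u p) ∧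
      mL L (fun u => 1 - Ph W P0 fe vq u p) ≤ C1 / p := by
  classical
  obtain ⟨C1, hC1, hvl⟩ := v1_lower W hW vq
  have hKn : (0 : ℝ) ≤ K := Nat.cast_nonneg K
  set cA : ℝ := K * C0 + K * (K * C0) + 2 * K * (K * C0) + C1 + C1 * (K * (K * C0)) with hcA
  have hcA0 : 0 ≤ cA := by positivity
  refine ⟨cA + (K * C0 + 2 * K), by positivity, ?_⟩
  intro P0 p hp h2 L hL
  have hp0 : (0 : ℝ) < p := by exact_mod_cast hp.pos
  set M := f3_M W vq P0 p with hM
  have hMm := f3_M_mem W hW vq P0 p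
  have hN0 : ∀ u : PolyK K, 0 ≤ ∑ j ∈ fe, f3_A p j u := fun u =>
    Finset.sum_nonneg (fun j _ => (f3_A_mem p j u).1)
  have hone : ∀ w : PolyK K, p ∣ DE fe w → 1 ≤ ∑ j ∈ fe, f3_A p j w := by
    intro w hbw
    obtain ⟨j, hj, hj1⟩ := (f3_DE_iff hp fe w).1 hbw
    have h3 := Finset.single_le_sum (f := fun j => f3_A p j w)
      (fun j _ => (f3_A_mem p j w).1) hj
    have h4 : f3_A p j w = 1 := by
      unfold f3_A ich
      rw [if_pos hj1]
    simp only [h4] at h3
    exact h3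
  have hnd : ∀ w : PolyK K, ¬ p ∣ DE fe w → ∀ j ∈ fe, ¬ (p : ℤ) ∣ dl w j := by
    intro w hw j hj h
    exact hw ((f3_DE_iff hp fe w).2 ⟨j, hj, h⟩)
  constructor
  · -- lower bound
    have hMp : 0 ≤ M / p := div_nonneg hMm.1 hp0.le
    have hCp : 0 ≤ C1 / (p : ℝ) := div_nonneg hC1 hp0.le
    have hCp2 : 0 ≤ C1 / (p : ℝ) ^ 2 := by positivity
    have hS0 : ∀ u : PolyK K, 0 ≤ f3_S fe vq p u := fun u =>
      f3_off_nonneg vq _ (fun i j => f3_ich_nonneg _)
    have hpt : ∀ u ∈ L, ((((∑ j ∈ fe, f3_a W P0 p j * f3_A p j u) -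
        f3_off fe (fun i j => f3_A p i u * f3_A p j u)) - M / p * ∑ j ∈ fe, f3_A p j u) -
        C1 / p * f3_S fe vq p u) + (M / p - C1 / (p : ℝ) ^ 2) ≤ 1 - Ph W P0 fe vq u p := by
      intro u hu
      have h1 := f3_point W hW fe vq P0 hp u
      have t1 := mul_nonneg hCp (hS0 u)
      have hv : M / p - C1 / (p : ℝ) ^ 2 - M / p * ∑ j ∈ fe, f3_A p j u -
          C1 / p * f3_S fe vq p u ≤ (if p ∣ DE fe u then 0 else v1 W P0 vq u p) := by
        by_cases hb : p ∣ DE fe u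
        · rw [if_pos hb]
          have hge := hone u hb
          have : M / p ≤ M / p * ∑ j ∈ fe, f3_A p j u := le_mul_of_one_le_right hMp hge
          linarith
        · rw [if_neg hb]
          have hz := hL.nz u hu (hnd u hb)
          have h3 := hvl P0 p hp h2 u hz
          have t4 := mul_nonneg hMp (hN0 u)
          by_cases hp3 : ¬ Sp p
          · rw [if_pos hp3] at h3
            have hM0 : M = 0 := by
              rw [hM]
              unfold f3_M
              rw [if_pos hp3]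
            rw [hM0] at t4 ⊢
            rw [zero_div] at t4 ⊢
            linarith
          · rw [if_neg hp3] at h3
            have hMe : M = 2 * (∑ i ∈ vq, (1 - W.gi P0 p i)) := by
              rw [hM]
              unfold f3_M
              rw [if_neg hp3]
            rw [← hMe] at h3
            have hst : ∑ i ∈ vq, ∑ j ∈ vq, (if i = j then 0 else
                ich ((p : ℤ) ∣ dt (u i) (u j)) : ℝ) = f3_S fe vq p u := by
              unfold f3_S f3_off
              apply Finset.sum_congr rfl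
              intro i _
              apply Finset.sum_congr rfl
              intro j _
              have hi1 : ich (∀ j ∈ fe, ¬ (p : ℤ) ∣ dl u j) = 1 := by
                unfold ich
                rw [if_pos (hnd u hb)]
              have hi2 : ich ((∀ j ∈ fe, ¬ (p : ℤ) ∣ dl u j) ∧ (p : ℤ) ∣ dt (u i) (u j)) =
                  ich ((p : ℤ) ∣ dt (u i) (u j)) := by
                rw [f3_ich_and, hi1, one_mul]
              simp only [hi2]
            rw [hst] at h3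
            linarith
      linarith
    refine le_trans ?_ (mL_mono hpt)
    have e1 : mL L (fun u => ((((∑ j ∈ fe, f3_a W P0 p j * f3_A p j u) -
        f3_off fe (fun i j => f3_A p i u * f3_A p j u)) - M / p * ∑ j ∈ fe, f3_A p j u) -
        C1 / p * f3_S fe vq p u) + (M / p - C1 / (p : ℝ) ^ 2)) =
        (((∑ j ∈ fe, f3_a W P0 p j * mL L (f3_A p j)) -
          mL L (fun u => f3_off fe (fun i j => f3_A p i u * f3_A p j u))) -
          M / p * mL L (fun u => ∑ j ∈ fe, f3_A p j u)) - C1 / p * mL L (f3_S fe vq p) +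
          (M / p - C1 / (p : ℝ) ^ 2) := by
      rw [mL_add, mL_const hL.ne, f3_mL_sub, f3_mL_sub, f3_mL_sub, f3_mL_sum, mL_smul, mL_smul]
      simp only [mL_smul]
    rw [e1]
    have e2 : (∑ j ∈ fe, f3_a W P0 p j) / p - K * C0 / (p : ℝ) ^ 2 ≤
        ∑ j ∈ fe, f3_a W P0 p j * mL L (f3_A p j) := by
      have h1 : ∑ j ∈ fe, f3_a W P0 p j * (1 / (p : ℝ) - C0 / (p : ℝ) ^ 2) ≤
          ∑ j ∈ fe, f3_a W P0 p j * mL L (f3_A p j) :=
        Finset.sum_le_sum (fun j hj => mul_le_mul_of_nonneg_left (hL.a j hj)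
          (f3_a_mem W hW P0 p j).1)
      rw [← Finset.sum_mul] at h1
      have h2 : ∑ j ∈ fe, f3_a W P0 p j ≤ K := by
        calc ∑ j ∈ fe, f3_a W P0 p j ≤ ∑ j ∈ fe, (1 : ℝ) :=
              Finset.sum_le_sum (fun j _ => (f3_a_mem W hW P0 p j).2)
          _ = (fe.card : ℝ) := by simp
          _ ≤ K := f3_card _
      have h3 : (∑ j ∈ fe, f3_a W P0 p j) * (C0 / (p : ℝ) ^ 2) ≤ K * (C0 / (p : ℝ) ^ 2) :=
        mul_le_mul_of_nonneg_right h2 (by positivity)
      have h4 : (∑ j ∈ fe, f3_a W P0 p j) / p = (∑ j ∈ fe, f3_a W P0 p j) * (1 / p) := by ring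
      have h5 : (K : ℝ) * C0 / (p : ℝ) ^ 2 = K * (C0 / (p : ℝ) ^ 2) := by ring
      rw [h4, h5]
      linarith
    have e3 : mL L (fun u => f3_off fe (fun i j => f3_A p i u * f3_A p j u)) ≤
        K * (K * (C0 / (p : ℝ) ^ 2)) := by
      refine f3_mL_off hL.ne fe (fun i j u => f3_A p i u * f3_A p j u) _ (by positivity) ?_
      intro i hi j hj hij
      refine le_trans (le_of_eq ?_) (hL.b i hi j hj hij)
      refine congrArg (mL L) ?_
      funext u
      rw [f3_ich_and]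
      rfl
    have e4 := f3_mL_N hC0 hL
    have e5 : mL L (f3_S fe vq p) ≤ K * (K * (C0 / p)) := by
      refine f3_mL_off hL.ne vq (fun i j u => ich ((∀ j ∈ fe, ¬ (p : ℤ) ∣ dl u j) ∧
        (p : ℤ) ∣ dt (u i) (u j))) _ (by positivity) ?_
      intro i hi j hj hij
      exact hL.d i hi j hj hij
    have e6 : M / p * mL L (fun u => ∑ j ∈ fe, f3_A p j u) ≤
        2 * K * (K * C0) / (p : ℝ) ^ 2 := by
      have : M / p * mL L (fun u => ∑ j ∈ fe, f3_A p j u) ≤
          2 * K / p * (K * (C0 / p)) := by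
        apply mul_le_mul _ e4.2 e4.1 (by positivity)
        exact div_le_div_of_nonneg_right hMm.2 hp0.le
      refine this.trans (le_of_eq ?_)
      field_simp
    have e7 : C1 / p * mL L (f3_S fe vq p) ≤ C1 * (K * (K * C0)) / (p : ℝ) ^ 2 := by
      refine (mul_le_mul_of_nonneg_left e5 hCp).trans (le_of_eq ?_)
      field_simp
    rw [f3_bd]
    have m5 : (cA + (K * C0 + 2 * K)) / (p : ℝ) ^ 2 =
        K * C0 / (p : ℝ) ^ 2 + K * (K * (C0 / (p : ℝ) ^ 2)) + 2 * K * (K * C0) / (p : ℝ) ^ 2 +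
          C1 / (p : ℝ) ^ 2 + C1 * (K * (K * C0)) / (p : ℝ) ^ 2 +
          (K * C0 + 2 * K) / (p : ℝ) ^ 2 := by
      rw [hcA]
      ring
    have m6 : 0 ≤ (K * C0 + 2 * K) / (p : ℝ) ^ 2 := by positivity
    have m7 : (∑ j ∈ fe, f3_a W P0 p j + M) / p =
        (∑ j ∈ fe, f3_a W P0 p j) / p + M / p := by ring
    rw [m5, m7]
    linarith
  · -- upper bound
    have hKp : 0 ≤ 2 * (K : ℝ) / p := by positivity
    have hpt : ∀ u ∈ L, 1 - Ph W P0 fe vq u p ≤ ∑ j ∈ fe, f3_A p j u + 2 * K / p := by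
      intro u hu
      by_cases hb : p ∣ DE fe u
      · have h5 := (Ph_mem_pr W hW P0 fe vq hp h2 u).1
        have := hone u hb
        linarith
      · have h6 := (v1_bounds W hW P0 vq u hp h2 (hL.nz u hu (hnd u hb))).2
        have h7 : (2 * K : ℝ) / (p + 1) ≤ 2 * K / p := by
          apply div_le_div_of_nonneg_left (by positivity) hp0
          linarith
        have h8 : 1 - Ph W P0 fe vq u p = v1 W P0 vq u p := by
          unfold Ph
          rw [if_neg hb]
          ring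
        rw [h8]
        linarith [hN0 u]
    refine (mL_mono hpt).trans ?_
    rw [mL_add, mL_const hL.ne]
    have h1 := (f3_mL_N hC0 hL).2
    have h2 : (cA + (K * C0 + 2 * K)) / (p : ℝ) = cA / p + (K * (C0 / p) + 2 * K / p) := by
      ring
    rw [h2]
    have h3 : 0 ≤ cA / (p : ℝ) := by positivity
    linarith




end Pool.Agent.AQ.PFM

namespace Pool.Agent.AQ.PFM

theorem Ph_per : type_of% @Ph_per_pr := @Ph_per_pr
theorem Ph_mem : type_of% @Ph_mem_pr := @Ph_mem_pr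
theorem c1_local : type_of% @c1_local_pr := @c1_local_pr

end Pool.Agent.AQ.PFM
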