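import Pool.Agent.Lib_helper15.AQ.PFM.Defs
import Pool.Agent.Lib_helper15.PFMF.F1
import Pool.Agent.Lib_helper15.PFMF.F3
import Pool.Agent.Lib_helper18.AQ.KF.PG1
import Pool.Agent.Lib_helper18.PENKF.PG1
import Pool.Agent.Lib_helper8.PENT.BH
import Pool.Agent.Lib_helper18.AQ.KF.PA4
import Pool.Agent.Lib_helper18.PENKF.PA4
import Pool.Agent.Lib_helper15.PFMF.F4
import Pool.Agent.Lib_helper15.AQ.PFMF.F3


set_option autoImplicit false

namespace Pool.Agent.AQ.PFM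

open Finset Pool.Agent.PENT
open Pool.Agent.PENK (PolyK Bas nr dl Rf Wts prs ind lw PerV PerP mL EquiF ich L1)
open Pool.Agent.PFM (DE ph LocS Bo Un)
open Pool.Agent.AQ.PENK (FD VV mV EQQ Sp nz)

variable [FD]

variable {K : ℕ} [NeZero K]

theorem f4_mem {L : Finset (PolyK K)} (hL : L.Nonempty) {h : PolyK K → ℝ}
    (hh : ∀ u, 0 ≤ h u ∧ h u ≤ 1) : 0 ≤ mL L h ∧ mL L h ≤ 1 := by
  constructor
  · have := Pool.Agent.PENK.mL_mono (L := L) (h := fun _ => (0 : ℝ)) (h' := h) (fun r _ => (hh r).1)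
    rwa [Pool.Agent.PENK.mL_const hL] at this
  · have := Pool.Agent.PENK.mL_mono (L := L) (h := h) (h' := fun _ => (1 : ℝ)) (fun r _ => (hh r).2)
    rwa [Pool.Agent.PENK.mL_const hL] at this

/-- block F4 (uses F3, `brun_primes`): the second sieve (as helper18's PG4 `c3_sieve`). `x o p = 1 - Ph`,
`X = #O`, errors from `EquiF` (expand `∏ x o p` is a product of functions modulo `p` with values in
`[0,1]`: take `h p = 1 - Ph`). `ps` so large that the densities are `≤ 1/2`. -/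
theorem c1_sieve_pr (W : Wts K) (hW : W.Ok) (fe vq : Finset (Fin K)) (C0 : ℝ) (hC0 : 0 ≤ C0) :
    ∃ (ps k : ℕ) (C1 : ℝ), nz K ≤ ps ∧ 2 ≤ ps ∧ 0 ≤ C1 ∧ ∀ (ι : Type) (O : Finset ι)
      (pol : ι → PolyK K) (L : ℕ → Finset (PolyK K)) (S : Finset ℕ) (P0 P : ℕ) (η : ℝ), 1 ≤ P →
      0 ≤ η → η ≤ 1 → (∀ p ∈ S, p.Prime ∧ ps < p ∧ p ≤ P) → (∀ p ∈ S, LocS fe vq p (L p) C0) →
      EquiF O pol L S ((P : ℝ) ^ k) η →
      ∑ o ∈ O, ∏ p ∈ S, Ph W P0 fe vq (pol o) p ≤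
        (O.card : ℝ) * (2 * ∏ p ∈ S, (1 - bd fe vq W P0 p / p + C1 / (p : ℝ) ^ 2) +
          (P : ℝ) ^ k * η) ∧
      ∀ p ∈ S, 1 / 4 ≤ 1 - bd fe vq W P0 p / p + C1 / (p : ℝ) ^ 2 := by
  obtain ⟨D, hD0, hloc⟩ := c1_local W hW fe vq C0 hC0
  obtain ⟨k, hk⟩ := brun_primes D 2 hD0 (by norm_num)
  refine ⟨nz K + ⌈2 * D⌉₊ + 2, k, D, by omega, by omega, hD0, ?_⟩
  intro ι O pol L S P0 P η hP hη hη1 hS hLoc hE
  -- the density
  set g : ℕ → ℝ := fun p => mL (L p) (fun u => 1 - Ph W P0 fe vq u p) with hg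
  have h2p : ∀ p ∈ S, FD.N0 < p := fun p hp => by
    have := (hS p hp).2.1
    exact Pool.Agent.AQ.PENK.nz_N (K := K) (by omega)
  have hx01 : ∀ p ∈ S, ∀ u : PolyK K, 0 ≤ 1 - Ph W P0 fe vq u p ∧
      1 - Ph W P0 fe vq u p ≤ 1 := by
    intro p hp u
    have := Ph_mem W hW P0 fe vq (hS p hp).1 (h2p p hp) u
    exact ⟨by linarith [this.2], by linarith [this.1]⟩
  have hg01 : ∀ p ∈ S, 0 ≤ g p ∧ g p ≤ 1 := fun p hp =>
    f4_mem (hLoc p hp).ne (fun u => hx01 p hp u)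
  have hgl : ∀ p ∈ S, bd fe vq W P0 p / p - D / (p : ℝ) ^ 2 ≤ g p ∧ g p ≤ D / p := fun p hp =>
    hloc P0 p (hS p hp).1 (h2p p hp) (L p) (hLoc p hp)
  have hDp : ∀ p ∈ S, D / (p : ℝ) ≤ 1 / 2 := by
    intro p hp
    have h1 : (nz K + ⌈2 * D⌉₊ + 2 : ℕ) < p := (hS p hp).2.1
    have h2 : (2 * D : ℝ) ≤ (⌈2 * D⌉₊ : ℝ) := Nat.le_ceil _
    have h3 : ((⌈2 * D⌉₊ : ℕ) : ℝ) ≤ (p : ℝ) := by
      have : ⌈2 * D⌉₊ ≤ p := by omega
      exact_mod_cast this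
    have hp0 : (0 : ℝ) < p := by exact_mod_cast (hS p hp).1.pos
    rw [div_le_iff₀ hp0]
    linarith
  have hX : (0 : ℝ) ≤ (O.card : ℝ) := by positivity
  have hR : (0 : ℝ) ≤ η * (O.card : ℝ) := by positivity
  have key := (hk ι O (fun _ => 1)
    (fun o p => 1 - Ph W P0 fe vq (pol o) p) S P g (O.card : ℝ)
    (η * (O.card : ℝ)) hP (fun _ _ => zero_le_one)
    (fun o _ p hp => hx01 p hp (pol o))
    (fun p hp => ⟨(hS p hp).1, (hS p hp).2.2⟩)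
    (fun p hp => ⟨(hg01 p hp).1, by
      have := (hgl p hp).2.trans (hDp p hp)
      norm_num
      linarith, (hgl p hp).2⟩) hX hR ?_).2
  · constructor
    · have e1 : ∑ o ∈ O, (fun _ : ι => (1 : ℝ)) o *
          ∏ p ∈ S, (1 - (1 - Ph W P0 fe vq (pol o) p)) =
          ∑ o ∈ O, ∏ p ∈ S, Ph W P0 fe vq (pol o) p := by
        refine Finset.sum_congr rfl fun o _ => ?_
        simp only [one_mul, sub_sub_cancel]
      have key2 : ∑ o ∈ O, ∏ p ∈ S, Ph W P0 fe vq (pol o) p ≤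
          2 * ((O.card : ℝ) * ∏ p ∈ S, (1 - g p)) + (P : ℝ) ^ k * (η * (O.card : ℝ)) := by
        rw [← e1]; exact key
      refine key2.trans ?_
      have h3 : ∏ p ∈ S, (1 - g p) ≤
          ∏ p ∈ S, (1 - bd fe vq W P0 p / p + D / (p : ℝ) ^ 2) := by
        refine Finset.prod_le_prod (fun p hp => by linarith [(hg01 p hp).2]) fun p hp => ?_
        linarith [(hgl p hp).1]
      have h4 := mul_le_mul_of_nonneg_left h3 hX
      calc 2 * ((O.card : ℝ) * ∏ p ∈ S, (1 - g p)) + (P : ℝ) ^ k * (η * (O.card : ℝ))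
          ≤ 2 * ((O.card : ℝ) * ∏ p ∈ S, (1 - bd fe vq W P0 p / p + D / (p : ℝ) ^ 2)) +
            (P : ℝ) ^ k * (η * (O.card : ℝ)) := by linarith
        _ = _ := by ring
    · intro p hp
      have h1 := (hgl p hp).1.trans ((hgl p hp).2.trans (hDp p hp))
      linarith
  · -- the hypothesis of the sieve
    intro T hT hTP
    have hTP' : ((∏ p ∈ T, p : ℕ) : ℝ) ≤ (P : ℝ) ^ k := by exact_mod_cast hTP
    have a2 : |∑ o ∈ O, ∏ p ∈ T, (1 - Ph W P0 fe vq (pol o) p) -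
        O.card * ∏ p ∈ T, g p| ≤ η * O.card := by
      refine hE T hT hTP' (fun p u => 1 - Ph W P0 fe vq u p) ?_ ?_
      · intro p hp u1 u2 huu
        have := Ph_per W P0 fe vq p u1 u2 huu
        simp only at this ⊢
        rw [this]
      · intro p hp u
        exact hx01 p (hT hp) u
    simpa only [one_mul] using a2


end Pool.Agent.AQ.PFM

namespace Pool.Agent.AQ.PFM

theorem c1_sieve : type_of% @c1_sieve_pr := @c1_sieve_pr

end Pool.Agent.AQ.PFM
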