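import Pool.Agent.Lib_helper15.AQ.PFM.Defs
import Pool.Agent.Lib_helper15.PFMF.F1
import Pool.Agent.Lib_helper18.AQ.KF.PA4
import Pool.Agent.Lib_helper18.PENKF.PA4
import Pool.Agent.Lib_helper8.PENT.BH
import Pool.Agent.Lib_helper15.PFMF.F5
import Pool.Agent.Lib_helper15.AQ.PFMF.F1


/-! Block F5 (project PENT, part FM) -/

set_option autoImplicit false

namespace Pool.Agent.AQ.PFM

open Finset Pool.Agent.PENT
open Pool.Agent.PENK (PolyK Bas nr dl Rf Wts prs ind lw PerV PerP mL EquiF ich L1)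
open Pool.Agent.PFM (DE ph LocS Bo Un)
open Pool.Agent.AQ.PENK (FD VV mV EQQ Sp nz)

variable [FD]

variable {K : ℕ} [NeZero K]

/-- the local condition at the edges -/
noncomputable def f5_h (E : Finset (Fin K)) (u : PolyK K) (p : ℕ) (R : Bas) : ℝ :=
  ich (∀ j ∈ E, p ∣ dn u j → (p : ℤ) ∣ Rf R (u j))

theorem f5_h_mem (E : Finset (Fin K)) (u : PolyK K) (p : ℕ) (R : Bas) :
    0 ≤ f5_h E u p R ∧ f5_h E u p R ≤ 1 := by
  unfold f5_h ich
  split_ifs <;> norm_num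

theorem f5_h_per (E : Finset (Fin K)) (u : PolyK K) (p : ℕ) : PerV p (f5_h E u p) := by
  intro r r' h1 h2 h3
  have hiff : ∀ c : ℤ × ℤ, (p : ℤ) ∣ Rf r c ↔ (p : ℤ) ∣ Rf r' c := by
    intro c
    have he : Rf r c - Rf r' c = (r.1 - r'.1) * c.1 ^ 2 + (r.2.1 - r'.2.1) * (2 * c.1 * c.2) +
        (r.2.2 - r'.2.2) * c.2 ^ 2 := by
      unfold Rf qf
      ring
    have hd : (p : ℤ) ∣ Rf r c - Rf r' c := by
      rw [he]
      exact dvd_add (dvd_add (Dvd.dvd.mul_right h1 _) (Dvd.dvd.mul_right h2 _))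
        (Dvd.dvd.mul_right h3 _)
    constructor
    · intro h
      have := dvd_sub h hd
      rwa [sub_sub_cancel] at this
    · intro h
      have := dvd_add hd h
      rwa [sub_add_cancel] at this
  unfold f5_h
  simp only [hiff]

theorem f5_h_over {E : Finset (Fin K)} {u : PolyK K} {R : Bas}
    (hR : ∀ j ∈ E, dl u j ∣ Rf R (u j)) (p : ℕ) : f5_h E u p R = 1 := by
  unfold f5_h ich
  rw [if_pos]
  intro j hj hd
  have h1 : (p : ℤ) ∣ dl u j := by
    unfold dn at hd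
    exact Int.natCast_dvd.2 hd
  exact h1.trans (hR j hj)

theorem f5_ne {u : PolyK K} (hpr : ∀ i, IsCoprime (u i).1 (u i).2) {p : ℕ} (hp : p.Prime)
    (i : Fin K) : ¬ ((p : ℤ) ∣ (u i).1 ∧ (p : ℤ) ∣ (u i).2) := by
  rintro ⟨h1, h2⟩
  have h3 : IsUnit (p : ℤ) := (hpr i).isUnit_of_dvd' h1 h2
  exact (Nat.prime_iff_prime_int.1 hp).not_isUnit h3

theorem f5_mean {E : Finset (Fin K)} {P0 : ℕ} (hP0 : 2 ≤ P0) {u : PolyK K} (h : IsP E P0 u)
    {p : ℕ} (hp : p.Prime) (hd : p ∣ DE E u) : mV p (f5_h E u p) = 2 / ((p : ℝ) + 1) := by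
  unfold DE at hd
  obtain ⟨j, hj, hjd⟩ := (Prime.dvd_finsetProd_iff hp.prime _).1 hd
  have hr := h.ro j hj p hp hjd
  have he : f5_h E u p = fun R => ich ((p : ℤ) ∣ Rf R (u j)) := by
    funext R
    unfold f5_h
    congr 1
    apply propext
    constructor
    · intro h1
      exact h1 j hj hjd
    · intro h1 i hi hid
      by_cases hij : i = j
      · rw [hij]; exact h1
      · exfalso
        exact Nat.not_coprime_of_dvd_of_dvd hp.one_lt hid hjd (h.co i hi j hj hij)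
  rw [he, Pool.Agent.AQ.PENK.mV_one hp (lt_of_le_of_lt h.np hr.1) (u j) (f5_ne h.pr hp j),
    if_pos hr.2]

/-- the sum over one box -/
theorem f5_box (E vq : Finset (Fin K)) (W : Wts K) (hW : W.Ok) {k : ℕ}
    (hk : ∀ (F : Finset Bas) (w : Bas → ℝ) (y : Bas → ℕ → ℝ) (S : Finset ℕ) (Y : ℕ) (g : ℕ → ℝ)
      (X R : ℝ), 1 ≤ Y → (∀ o ∈ F, 0 ≤ w o) →
      (∀ o ∈ F, ∀ p ∈ S, 0 ≤ y o p ∧ y o p ≤ 1) → (∀ p ∈ S, p.Prime ∧ p ≤ Y) →
      (∀ p ∈ S, 0 ≤ g p ∧ g p ≤ 1 - 1 / (2 : ℝ) ∧ g p ≤ (2 * K : ℝ) / p) → 0 ≤ X → 0 ≤ R →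
      (∀ T ⊆ S, ∏ p ∈ T, p ≤ Y ^ k →
        |∑ o ∈ F, w o * ∏ p ∈ T, y o p - X * ∏ p ∈ T, g p| ≤ R) →
      ∑ o ∈ F, w o * ∏ p ∈ S, (1 - y o p) ≤
        2 * (X * ∏ p ∈ S, (1 - g p)) + (Y : ℝ) ^ k * R)
    {x δ : ℝ} (hx : 1 ≤ x) {P0 P : ℕ} (hP0 : 2 ≤ P0) (hP : 1 ≤ P) {u : PolyK K}
    (h : IsP E P0 u)
    (hDD : ((DE E u : ℕ) : ℝ) * (P : ℝ) ^ k ≤ x ^ δ) (hpos : 0 < DE E u)
    (O : Finset Bas) (f : Bas → Bas)
    (hO : ∀ (T : Finset ℕ) (h : ℕ → Bas → ℝ), (∀ p ∈ T, p.Prime ∧ FD.N0 < p) →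
      ((∏ p ∈ T, p : ℕ) : ℝ) ≤ x ^ δ → (∀ p ∈ T, PerV p (h p)) →
      (∀ p ∈ T, ∀ r, 0 ≤ h p r ∧ h p r ≤ 1) →
      |∑ o ∈ O, ∏ p ∈ T, h p (f o) - O.card * ∏ p ∈ T, mV p (h p)| ≤ x ^ (1 - δ))
    (S : Finset Bas) (hS : ∀ R ∈ S, ∀ j ∈ E, dl u j ∣ Rf R (u j))
    (hf : ∀ R ∈ S, ∃ o ∈ O, f o = R) :
    ∑ R ∈ S, ∏ p ∈ (prs FD.N0 P).filter (fun p => ¬ p ∣ DE E u), ph W P0 vq u p R ≤
      2 * ((O.card : ℝ) * (∏ p ∈ (DE E u).primeFactors, 2 / ((p : ℝ) + 1)) *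
        ∏ p ∈ (prs (nz K) P).filter (fun p => ¬ p ∣ DE E u), (1 - v1 W P0 vq u p)) +
        (P : ℝ) ^ k * x ^ (1 - δ) := by
  classical
  set PS : Finset ℕ := (prs (nz K) P).filter (fun p => ¬ p ∣ DE E u) with hPS
  set D : Finset ℕ := (DE E u).primeFactors with hD
  have hK1 : 1 ≤ K := Nat.one_le_iff_ne_zero.2 (NeZero.ne K)
  have hPSp : ∀ p ∈ PS, p.Prime ∧ (100 * K < p ∧ FD.N0 < p) ∧ p ≤ P ∧ ¬ p ∣ DE E u := by
    intro p hp
    rw [hPS, mem_filter] at hp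
    unfold prs at hp
    rw [mem_filter, mem_Ioc] at hp
    exact ⟨hp.1.2, ⟨Pool.Agent.AQ.PENK.nz_K hp.1.1.1, Pool.Agent.AQ.PENK.nz_N hp.1.1.1⟩,
      hp.1.1.2, hp.2⟩
  have hDp : ∀ p ∈ D, p.Prime ∧ FD.N0 < p ∧ p ∣ DE E u := by
    intro p hp
    have hp1 := Nat.prime_of_mem_primeFactors hp
    have hp2 := Nat.dvd_of_mem_primeFactors hp
    refine ⟨hp1, ?_, hp2⟩
    have hp3 := hp2
    unfold DE at hp3
    obtain ⟨j, hj, hjd⟩ := (Prime.dvd_finsetProd_iff hp1.prime _).1 hp3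
    exact lt_of_le_of_lt h.np (h.ro j hj p hp1 hjd).1
  have hdis : ∀ T ⊆ PS, Disjoint D T := by
    intro T hT
    rw [Finset.disjoint_left]
    intro p hp hpT
    exact (hPSp p (hT hpT)).2.2.2 (hDp p hp).2.2
  have hK0 : (1 : ℝ) ≤ K := by exact_mod_cast hK1
  -- the sieve
  have hsv := hk O (fun o => ∏ p ∈ D, f5_h E u p (f o)) (fun o p => 1 - ph W P0 vq u p (f o)) PS
    P (fun p => v1 W P0 vq u p) ((O.card : ℝ) * ∏ p ∈ D, 2 / ((p : ℝ) + 1)) (x ^ (1 - δ)) hP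
    (fun o _ => Finset.prod_nonneg (fun p _ => (f5_h_mem E u p (f o)).1))
    (fun o _ p _ => by
      have := Pool.Agent.PFM.ph_mem_pr W hW P0 vq u p (f o)
      constructor <;> linarith [this.1, this.2])
    (fun p hp => ⟨(hPSp p hp).1, (hPSp p hp).2.2.1⟩)
    (fun p hp => by
      have hp' := hPSp p hp
      have h2 : FD.N0 < p := hp'.2.1.2
      have hv := v1_bounds W hW P0 vq u hp'.1 h2 (fun i _ => f5_ne h.pr hp'.1 i)
      have hpK : (100 * K : ℝ) < p := by exact_mod_cast hp'.2.1.1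
      have hp0 : (0 : ℝ) < p := by linarith
      refine ⟨hv.1, hv.2.trans ?_, hv.2.trans ?_⟩
      · rw [div_le_iff₀ (by linarith)]
        linarith
      · apply div_le_div_of_nonneg_left (by linarith) hp0 (by linarith))
    (by positivity)
    (by positivity)
    (by
      intro T hT hTP
      have e1 := hO (D ∪ T) (fun p => if p ∈ T then (fun R => 1 - ph W P0 vq u p R)
        else f5_h E u p)
        (fun p hp => by
          rcases Finset.mem_union.1 hp with h1 | h1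
          · exact ⟨(hDp p h1).1, (hDp p h1).2.1⟩
          · have := hPSp p (hT h1)
            exact ⟨this.1, this.2.1.2⟩)
        (by
          rw [Finset.prod_union (hdis T hT)]
          push_cast
          have h1 : ((∏ p ∈ D, p : ℕ) : ℝ) ≤ ((DE E u : ℕ) : ℝ) := by
            exact_mod_cast Nat.le_of_dvd hpos (Nat.prod_primeFactors_dvd _)
          have h2 : ((∏ p ∈ T, p : ℕ) : ℝ) ≤ (P : ℝ) ^ k := by exact_mod_cast hTP
          push_cast at h1 h2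
          refine le_trans (mul_le_mul h1 h2 ?_ ?_) hDD
          · exact Finset.prod_nonneg (fun p _ => Nat.cast_nonneg _)
          · positivity)
        (fun p _ => by
          split_ifs
          · intro r r' h1 h2 h3
            have := Pool.Agent.PFM.ph_per_pr W P0 vq u p r r' h1 h2 h3
            simp only [this]
          · exact f5_h_per E u p)
        (fun p _ r => by
          split_ifs
          · have := Pool.Agent.PFM.ph_mem_pr W hW P0 vq u p r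
            constructor <;> linarith [this.1, this.2]
          · exact f5_h_mem E u p r)
      have e2 : ∀ o : Bas, (∏ p ∈ D ∪ T, (if p ∈ T then (fun R => 1 - ph W P0 vq u p R)
          else f5_h E u p) (f o)) = (∏ p ∈ D, f5_h E u p (f o)) *
            ∏ p ∈ T, (1 - ph W P0 vq u p (f o)) := by
        intro o
        rw [Finset.prod_union (hdis T hT)]
        refine congrArg₂ (· * ·) ?_ ?_
        · apply Finset.prod_congr rfl
          intro p hp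
          rw [if_neg (Finset.disjoint_left.1 (hdis T hT) hp)]
        · apply Finset.prod_congr rfl
          intro p hp
          rw [if_pos hp]
      have e3 : (∏ p ∈ D ∪ T, mV p (if p ∈ T then (fun R => 1 - ph W P0 vq u p R)
          else f5_h E u p)) = (∏ p ∈ D, 2 / ((p : ℝ) + 1)) * ∏ p ∈ T, v1 W P0 vq u p := by
        rw [Finset.prod_union (hdis T hT)]
        refine congrArg₂ (· * ·) ?_ ?_
        · apply Finset.prod_congr rfl
          intro p hp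
          rw [if_neg (Finset.disjoint_left.1 (hdis T hT) hp)]
          exact f5_mean hP0 h (hDp p hp).1 (hDp p hp).2.2
        · apply Finset.prod_congr rfl
          intro p hp
          rw [if_pos hp]
          rfl
      simp only [e2, e3] at e1
      rw [mul_assoc]
      exact e1)
  -- the sum over S
  have hsum : ∑ R ∈ S, ∏ p ∈ (prs FD.N0 P).filter (fun p => ¬ p ∣ DE E u), ph W P0 vq u p R ≤
      ∑ o ∈ O, (∏ p ∈ D, f5_h E u p (f o)) * ∏ p ∈ PS, (1 - (1 - ph W P0 vq u p (f o))) := by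
    choose! e he1 he2 using hf
    have h1 : ∑ R ∈ S, ∏ p ∈ (prs FD.N0 P).filter (fun p => ¬ p ∣ DE E u),
        ph W P0 vq u p R ≤ ∑ R ∈ S, (∏ p ∈ D, f5_h E u p (f (e R))) *
          ∏ p ∈ PS, (1 - (1 - ph W P0 vq u p (f (e R)))) := by
      apply Finset.sum_le_sum
      intro R hR
      rw [he2 R hR, Finset.prod_congr rfl (fun p _ => f5_h_over (hS R hR) p),
        Finset.prod_const_one, one_mul]
      have hsub : PS ⊆ (prs FD.N0 P).filter (fun p => ¬ p ∣ DE E u) := by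
        intro p hp
        have := hPSp p hp
        rw [mem_filter]
        unfold prs
        rw [mem_filter, mem_Ioc]
        exact ⟨⟨⟨this.2.1.2, this.2.2.1⟩, this.1⟩, this.2.2.2⟩
      have h2 : ∏ p ∈ PS, (1 - (1 - ph W P0 vq u p R)) = ∏ p ∈ PS, ph W P0 vq u p R := by
        apply Finset.prod_congr rfl
        intro p _
        ring
      rw [h2, ← Finset.prod_sdiff hsub]
      have h3 : ∏ p ∈ ((prs FD.N0 P).filter (fun p => ¬ p ∣ DE E u)) \ PS,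
          ph W P0 vq u p R ≤ 1 :=
        Finset.prod_le_one (fun p _ => (Pool.Agent.PFM.ph_mem_pr W hW P0 vq u p R).1)
          (fun p _ => (Pool.Agent.PFM.ph_mem_pr W hW P0 vq u p R).2)
      have h4 : 0 ≤ ∏ p ∈ PS, ph W P0 vq u p R :=
        Finset.prod_nonneg (fun p _ => (Pool.Agent.PFM.ph_mem_pr W hW P0 vq u p R).1)
      nlinarith
    refine h1.trans ?_
    have hinj : Set.InjOn e (S : Set Bas) := by
      intro R hR R' hR' hee
      rw [← he2 R hR, ← he2 R' hR', hee]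
    rw [← Finset.sum_image (f := fun o => (∏ p ∈ D, f5_h E u p (f o)) *
      ∏ p ∈ PS, (1 - (1 - ph W P0 vq u p (f o)))) hinj]
    apply Finset.sum_le_sum_of_subset_of_nonneg
    · intro o ho
      obtain ⟨R, hR, rfl⟩ := Finset.mem_image.1 ho
      exact he1 R hR
    · intro o _ _
      apply mul_nonneg (Finset.prod_nonneg (fun p _ => (f5_h_mem E u p (f o)).1))
      apply Finset.prod_nonneg
      intro p _
      have := (Pool.Agent.PFM.ph_mem_pr W hW P0 vq u p (f o)).1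
      linarith
  exact hsum.trans hsv

/-- block F5 -/
theorem rsum1_pr (E vq : Finset (Fin K)) (W : Wts K) (hW : W.Ok) {δ : ℝ} (hδ : 0 < δ)
    (hδ1 : δ ≤ 1 / 10) (hE : EQQ δ) (C4 : ℝ) (h4 : 1 ≤ C4) :
    ∃ τ₀ : ℝ, 0 < τ₀ ∧ ∃ C x₀ : ℝ, 0 ≤ C ∧ 1 ≤ x₀ ∧ ∀ x ≥ x₀, ∀ P0 P : ℕ, 2 ≤ P0 → 1 ≤ P →
      (P : ℝ) ≤ x ^ τ₀ → ∀ u : PolyK K, IsP E P0 u → (DE E u : ℝ) ≤ x ^ (δ / 2) →
      ∀ S : Finset Bas, (∀ R ∈ S, R.1 * R.2.2 - R.2.1 ^ 2 = FD.D ∧ x < (R.1 : ℝ) ∧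
        (R.1 : ℝ) ≤ 2 * x ∧ |(R.2.1 : ℝ)| ≤ C4 * x ∧ ∀ j ∈ E, dl u j ∣ Rf R (u j)) →
      ∑ R ∈ S, ∏ p ∈ (prs FD.N0 P).filter (fun p => ¬ p ∣ DE E u), ph W P0 vq u p R ≤
        C * x * ((∏ p ∈ (DE E u).primeFactors, 2 / ((p : ℝ) + 1)) *
          ∏ p ∈ (prs (nz K) P).filter (fun p => ¬ p ∣ DE E u), (1 - v1 W P0 vq u p)) +
          x ^ (1 - δ / 2) := by
  classical
  have hK1 : 1 ≤ K := Nat.one_le_iff_ne_zero.2 (NeZero.ne K)
  have hK0 : (1 : ℝ) ≤ K := by exact_mod_cast hK1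
  obtain ⟨k, hk⟩ := brun_primes (2 * K : ℝ) 2 (by linarith) (by norm_num)
  obtain ⟨CE, x₃, hCE, hx₃, hE'⟩ := hE C4 h4
  refine ⟨δ / (4 * (k + 1)), by positivity, 2 * CE, x₃, by positivity, by linarith, ?_⟩
  intro x hx P0 P hP0 hP hPx u h hDE S hS
  have hx1 : 1 ≤ x := by linarith
  have hx0 : 0 < x := by linarith
  have hPk : (P : ℝ) ^ k ≤ x ^ (δ / 4) := by
    calc (P : ℝ) ^ k ≤ (x ^ (δ / (4 * (k + 1)))) ^ k := by
          apply pow_le_pow_left₀ (Nat.cast_nonneg _) hPx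
      _ = x ^ (δ / (4 * (k + 1)) * k) := by
          rw [← Real.rpow_natCast, ← Real.rpow_mul hx0.le]
      _ ≤ x ^ (δ / 4) := by
          apply Real.rpow_le_rpow_of_exponent_le hx1
          have hk0 : (0 : ℝ) < k + 1 := by positivity
          have : δ / (4 * (k + 1)) * k = δ / 4 * (k / (k + 1)) := by field_simp
          rw [this]
          have h1 : (k : ℝ) / (k + 1) ≤ 1 := by
            rw [div_le_one hk0]; linarith
          nlinarith
  have hDP : ((DE E u : ℕ) : ℝ) * (P : ℝ) ^ k ≤ x ^ δ := by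
    have h2 : ((DE E u : ℕ) : ℝ) * (P : ℝ) ^ k ≤ x ^ (δ / 2) * x ^ (δ / 4) :=
      mul_le_mul hDE hPk (by positivity) (by positivity)
    refine h2.trans ?_
    rw [← Real.rpow_add hx0]
    apply Real.rpow_le_rpow_of_exponent_le hx1
    linarith
  have hpos : 0 < DE E u := by
    unfold DE
    exact Finset.prod_pos (fun j hj => Nat.pos_of_ne_zero (h.sq j hj).ne_zero)
  have hpit : 0 ≤ ∏ p ∈ (DE E u).primeFactors, 2 / ((p : ℝ) + 1) := by positivity
  have hVP : 0 ≤ ∏ p ∈ (prs (nz K) P).filter (fun p => ¬ p ∣ DE E u),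
      (1 - v1 W P0 vq u p) := by
    apply Finset.prod_nonneg
    intro p hp
    unfold prs at hp
    rw [mem_filter, mem_filter, mem_Ioc] at hp
    have h2 : FD.N0 < p := Pool.Agent.AQ.PENK.nz_N hp.1.1.1
    linarith [(v1_mem W hW P0 vq u hp.1.2 h2).2]
  obtain ⟨O, f, hO1, hO2, hO3⟩ := hE' x hx x
    (by
      calc x ^ (1 - δ) ≤ x ^ (1 : ℝ) := Real.rpow_le_rpow_of_exponent_le hx1 (by linarith)
        _ = x := Real.rpow_one x)
    (by
      calc x = x ^ (1 : ℝ) := (Real.rpow_one x).symm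
        _ ≤ x ^ (1 + δ) := Real.rpow_le_rpow_of_exponent_le hx1 (by linarith))
  have hb := f5_box E vq W hW (k := k)
    (fun F w y S Y g X R a b c d e f g' h => (hk Bas F w y S Y g X R a b c d e f g' h).2)
    hx1 hP0 hP h hDP hpos O f hO3 S (fun R hR => (hS R hR).2.2.2.2)
    (fun R hR => hO1 R (hS R hR).1 (hS R hR).2.1 (hS R hR).2.2.1 (hS R hR).2.2.2.1)
  refine hb.trans (add_le_add ?_ ?_)
  · have h1 : (O.card : ℝ) * ((∏ p ∈ (DE E u).primeFactors, 2 / ((p : ℝ) + 1)) *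
        ∏ p ∈ (prs (nz K) P).filter (fun p => ¬ p ∣ DE E u), (1 - v1 W P0 vq u p)) ≤
        CE * x * ((∏ p ∈ (DE E u).primeFactors, 2 / ((p : ℝ) + 1)) *
        ∏ p ∈ (prs (nz K) P).filter (fun p => ¬ p ∣ DE E u), (1 - v1 W P0 vq u p)) :=
      mul_le_mul_of_nonneg_right hO2 (mul_nonneg hpit hVP)
    rw [mul_assoc (O.card : ℝ)]
    linarith
  · calc (P : ℝ) ^ k * x ^ (1 - δ) ≤ x ^ (δ / 4) * x ^ (1 - δ) :=
          mul_le_mul_of_nonneg_right hPk (by positivity)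
      _ = x ^ (δ / 4 + (1 - δ)) := by rw [← Real.rpow_add hx0]
      _ ≤ x ^ (1 - δ / 2) := Real.rpow_le_rpow_of_exponent_le hx1 (by linarith)


end Pool.Agent.AQ.PFM

namespace Pool.Agent.AQ.PFM

theorem rsum1 : type_of% @rsum1_pr := @rsum1_pr

end Pool.Agent.AQ.PFM
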