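import Pool.Agent.Lib_helper15.AQ.PFM.Defs
import Pool.Agent.Lib_helper15.PFMF.F1
import Pool.Agent.Lib_helper15.PFMF.F6
import Pool.Agent.Lib_helper15.AQ.PFMF.F1


set_option autoImplicit false

namespace Pool.Agent.AQ.PFM

open Finset Pool.Agent.PENT
open Pool.Agent.PENK (PolyK Bas nr dl Rf Wts prs ind lw PerV PerP mL EquiF ich L1)
open Pool.Agent.PFM (DE ph LocS Bo Un)
open Pool.Agent.AQ.PENK (FD VV mV EQQ Sp nz)

variable [FD]

variable {K : ℕ} [NeZero K]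

theorem f6_ne {E : Finset (Fin K)} {P0 : ℕ} {u : PolyK K} (h : IsP E P0 u) : DE E u ≠ 0 :=
  Finset.prod_ne_zero_iff.mpr (fun j hj => (h.sq j hj).ne_zero)

theorem f6_one {E : Finset (Fin K)} {P0 : ℕ} {u : PolyK K} (h : IsP E P0 u) {p : ℕ}
    (hp : p.Prime) (hd : p ∣ DE E u) :
    ∃ j0 ∈ E, p ∣ dn u j0 ∧ ∀ j ∈ E, p ∣ dn u j → j = j0 := by
  obtain ⟨j0, hj0, hdj⟩ := (hp.prime.dvd_finsetProd_iff _).mp hd
  refine ⟨j0, hj0, hdj, ?_⟩
  intro j hj hd2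
  by_contra hne
  exact Nat.not_coprime_of_dvd_of_dvd hp.one_lt hd2 hdj (h.co j hj j0 hj0 hne)

theorem f6_single {E : Finset (Fin K)} {u : PolyK K} {p : ℕ}
    {j0 : Fin K} (hj0 : j0 ∈ E) (hd : p ∣ dn u j0)
    (hu : ∀ j ∈ E, p ∣ dn u j → j = j0) (f : Fin K → ℝ) :
    ∏ j ∈ E, (if p ∣ dn u j then f j else 1) = f j0 := by
  rw [Finset.prod_eq_single_of_mem j0 hj0]
  · rw [if_pos hd]
  · intro j hj hne
    rw [if_neg]
    intro h2
    exact hne (hu j hj h2)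

theorem f6_pf {E : Finset (Fin K)} {P0 : ℕ} {u : PolyK K} (h : IsP E P0 u) {j : Fin K}
    (hj : j ∈ E) : (dn u j).primeFactors = (DE E u).primeFactors.filter (fun p => p ∣ dn u j) := by
  ext p
  rw [Finset.mem_filter, Nat.mem_primeFactors, Nat.mem_primeFactors]
  constructor
  · intro ⟨h1, h2, _⟩
    exact ⟨⟨h1, dvd_trans h2 (Finset.dvd_prod_of_mem _ hj), f6_ne h⟩, h2⟩
  · intro ⟨⟨h1, _, _⟩, h2⟩
    exact ⟨h1, h2, (h.sq j hj).ne_zero⟩

theorem f6_swap {E : Finset (Fin K)} {P0 : ℕ} {u : PolyK K} (h : IsP E P0 u)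
    (f : Fin K → ℕ → ℝ) :
    ∏ j ∈ E, ∏ p ∈ (dn u j).primeFactors, f j p =
      ∏ p ∈ (DE E u).primeFactors, ∏ j ∈ E, (if p ∣ dn u j then f j p else 1) := by
  rw [Finset.prod_comm]
  apply Finset.prod_congr rfl
  intro j hj
  rw [f6_pf h hj, Finset.prod_filter]

theorem f6_inv {E : Finset (Fin K)} {P0 : ℕ} {u : PolyK K} (h : IsP E P0 u) :
    ∏ j ∈ E, ∏ p ∈ (dn u j).primeFactors, (1 / (p : ℝ)) = 1 / (DE E u : ℝ) := by
  have h1 : ∀ j ∈ E, ∏ p ∈ (dn u j).primeFactors, (1 / (p : ℝ)) = 1 / (dn u j : ℝ) := by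
    intro j hj
    have h2 := Nat.prod_primeFactors_of_squarefree (h.sq j hj)
    have h3 : ((∏ p ∈ (dn u j).primeFactors, p : ℕ) : ℝ) = (dn u j : ℝ) := by rw [h2]
    rw [Nat.cast_prod] at h3
    rw [Finset.prod_div_distrib, Finset.prod_const_one, h3]
  rw [Finset.prod_congr rfl h1, Finset.prod_div_distrib, Finset.prod_const_one]
  unfold DE
  rw [Nat.cast_prod]

/-- the number of the prime factors larger than `P` -/
theorem f6_large {D P : ℕ} {x τ : ℝ} (hx : 2 ≤ x) (hτ : 0 < τ) (hP : x ^ τ ≤ P) (hD : D ≠ 0)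
    (hDx : (D : ℝ) ≤ x) :
    (2 : ℝ) ^ (D.primeFactors.filter (fun p => P < p)).card ≤ (2 : ℝ) ^ (1 / τ) := by
  obtain ⟨B, hB⟩ : ∃ B, B = D.primeFactors.filter (fun p => P < p) := ⟨_, rfl⟩
  rw [← hB]
  have hx0 : (0 : ℝ) < x := by linarith
  have h1 : (x ^ τ) ^ B.card ≤ x := by
    have h2 : (x ^ τ) ^ B.card ≤ ∏ p ∈ B, (p : ℝ) := by
      rw [← Finset.prod_const]
      apply Finset.prod_le_prod
      · intro p _
        positivity
      · intro p hp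
        rw [hB, Finset.mem_filter] at hp
        have h3 : (P : ℝ) ≤ (p : ℝ) := by exact_mod_cast hp.2.le
        linarith
    have h3 : (∏ p ∈ B, p) ≤ D := by
      apply Nat.le_of_dvd (Nat.pos_of_ne_zero hD)
      refine dvd_trans (Finset.prod_dvd_prod_of_subset B D.primeFactors (fun p => p) ?_)
        (Nat.prod_primeFactors_dvd D)
      rw [hB]
      exact Finset.filter_subset _ _
    have h4 : (∏ p ∈ B, (p : ℝ)) ≤ (D : ℝ) := by
      have h5 : (((∏ p ∈ B, p : ℕ)) : ℝ) ≤ (D : ℝ) := Nat.cast_le.mpr h3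
      rw [Nat.cast_prod] at h5
      exact h5
    linarith
  have h5 : x ^ (τ * B.card) ≤ x ^ (1 : ℝ) := by
    rw [Real.rpow_mul hx0.le, Real.rpow_natCast, Real.rpow_one]
    exact h1
  have h6 : τ * B.card ≤ 1 := (Real.rpow_le_rpow_left_iff (by linarith)).mp h5
  have h7 : (B.card : ℝ) ≤ 1 / τ := by
    rw [le_div_iff₀ hτ]
    linarith
  rw [← Real.rpow_natCast]
  exact Real.rpow_le_rpow_of_exponent_le (by norm_num) h7

/-- block F6 (uses F1): the passage from `v1` to `Ph` (as helper18's PG5 `wi_VP_le`). The primes `> P` of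
`DE` are at most `1/τ` in number and cost a factor `2` each; the others belong to `S` if they are
`> ps`. -/
theorem w1_le_pr (W : Wts K) (hW : W.Ok) (fe vq : Finset (Fin K)) {τ : ℝ} (hτ : 0 < τ) :
    ∃ C x₀ : ℝ, 0 ≤ C ∧ 1 ≤ x₀ ∧ ∀ x ≥ x₀, ∀ P0 P ps : ℕ, nz K ≤ ps → 2 ≤ ps → ps ≤ P0 →
    x ^ τ ≤ P → ∀ u : PolyK K, IsP fe P0 u → (DE fe u : ℝ) ≤ x → ∀ m : ℕ,
    Nat.Coprime m (DE fe u) →
    (∏ j ∈ fe, ∏ p ∈ (dn u j).primeFactors, 2 * lw P p (W.al j) / (p : ℝ)) *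
      ∏ p ∈ (prs (nz K) P).filter (fun p => ¬ p ∣ DE fe u), (1 - v1 W P0 vq u p) ≤
      C / (DE fe u : ℝ) * ∏ p ∈ (prs ps P).filter (fun p => ¬ p ∣ m), Ph W P0 fe vq u p := by
  refine ⟨(2 : ℝ) ^ (1 / τ), 2, by positivity, by norm_num, ?_⟩
  intro x hx P0 P ps hps hps2 hps0 hP u hu hDx m hm
  have hK1 : 1 ≤ K := Nat.one_le_iff_ne_zero.mpr (NeZero.ne K)
  obtain ⟨D, hD⟩ : ∃ D, D = DE fe u := ⟨_, rfl⟩
  have hD0 : DE fe u ≠ 0 := f6_ne hu
  -- the first factor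
  have e1 : (∏ j ∈ fe, ∏ p ∈ (dn u j).primeFactors, 2 * lw P p (W.al j) / (p : ℝ)) =
      (∏ p ∈ (DE fe u).primeFactors, ∏ j ∈ fe,
        (if p ∣ dn u j then 2 * lw P p (W.al j) else 1)) * (1 / (DE fe u : ℝ)) := by
    rw [← f6_inv hu, ← f6_swap hu, ← Finset.prod_mul_distrib]
    apply Finset.prod_congr rfl
    intro j _
    rw [← Finset.prod_mul_distrib]
    apply Finset.prod_congr rfl
    intro p _
    ring
  obtain ⟨h, hh⟩ : ∃ h : ℕ → ℝ, h = fun p => ∏ j ∈ fe,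
    (if p ∣ dn u j then 2 * lw P p (W.al j) else 1) := ⟨_, rfl⟩
  have e2 : (∏ p ∈ (DE fe u).primeFactors, ∏ j ∈ fe,
        (if p ∣ dn u j then 2 * lw P p (W.al j) else 1)) =
      (∏ p ∈ (DE fe u).primeFactors.filter (fun p => P < p), h p) *
        ∏ p ∈ (DE fe u).primeFactors.filter (fun p => ¬ P < p), h p := by
    rw [Finset.prod_filter_mul_prod_filter_not, hh]
  have hlw0 : ∀ (p : ℕ) (j : Fin K), 0 ≤ 2 * lw P p (W.al j) := by
    intro p j
    unfold lw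
    split_ifs
    · have h1 := hW.al0 j
      linarith
    · norm_num
  have hh0 : ∀ p, 0 ≤ h p := by
    intro p
    rw [hh]
    apply Finset.prod_nonneg
    intro j _
    split_ifs
    · exact hlw0 p j
    · norm_num
  have e3 : (∏ p ∈ (DE fe u).primeFactors.filter (fun p => P < p), h p) ≤ (2 : ℝ) ^ (1 / τ) := by
    refine le_trans ?_ (f6_large hx hτ hP hD0 hDx)
    rw [← Finset.prod_const]
    apply Finset.prod_le_prod
    · intro p _
      exact hh0 p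
    · intro p hp
      rw [Finset.mem_filter, Nat.mem_primeFactors] at hp
      obtain ⟨j0, hj0, hd0, hu0⟩ := f6_one hu hp.1.1 hp.1.2.1
      rw [hh]
      show ∏ j ∈ fe, (if p ∣ dn u j then 2 * lw P p (W.al j) else 1) ≤ 2
      rw [f6_single hj0 hd0 hu0 (fun j => 2 * lw P p (W.al j))]
      unfold lw
      rw [if_neg (not_le.mpr hp.2)]
      norm_num
  -- the product on the right
  have r1 : ∏ p ∈ (prs ps P).filter (fun p => ¬ p ∣ m), Ph W P0 fe vq u p =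
      (∏ p ∈ ((prs ps P).filter (fun p => ¬ p ∣ m)).filter (fun p => p ∣ DE fe u),
        Ph W P0 fe vq u p) *
      ∏ p ∈ ((prs ps P).filter (fun p => ¬ p ∣ m)).filter (fun p => ¬ p ∣ DE fe u),
        Ph W P0 fe vq u p := by
    rw [Finset.prod_filter_mul_prod_filter_not]
  have r2 : ((prs ps P).filter (fun p => ¬ p ∣ m)).filter (fun p => p ∣ DE fe u) =
      (DE fe u).primeFactors.filter (fun p => ¬ P < p) := by
    ext p
    unfold prs
    simp only [Finset.mem_filter, Finset.mem_Ioc, Nat.mem_primeFactors]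
    constructor
    · intro ⟨⟨⟨⟨_, h2⟩, h3⟩, _⟩, h5⟩
      exact ⟨⟨h3, h5, hD0⟩, not_lt.mpr h2⟩
    · intro ⟨⟨h3, h5, _⟩, h6⟩
      obtain ⟨j0, hj0, hd0, _⟩ := f6_one hu h3 h5
      have h7 := (hu.ro j0 hj0 p h3 hd0).1
      refine ⟨⟨⟨⟨lt_of_le_of_lt hps0 h7, not_lt.mp h6⟩, h3⟩, ?_⟩, h5⟩
      intro h8
      exact Nat.not_coprime_of_dvd_of_dvd h3.one_lt h8 h5 hm
  have r3 : ∏ p ∈ (DE fe u).primeFactors.filter (fun p => ¬ P < p), Ph W P0 fe vq u p =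
      ∏ p ∈ (DE fe u).primeFactors.filter (fun p => ¬ P < p), h p := by
    apply Finset.prod_congr rfl
    intro p hp
    rw [Finset.mem_filter, Nat.mem_primeFactors] at hp
    obtain ⟨j0, hj0, hd0, _⟩ := f6_one hu hp.1.1 hp.1.2.1
    have h7 := hu.ro j0 hj0 p hp.1.1 hd0
    unfold Ph
    rw [if_pos hp.1.2.1, if_neg, hh]
    · apply Finset.prod_congr rfl
      intro j _
      split_ifs with h8
      · unfold lw
        rw [if_pos (not_lt.mp hp.2)]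
      · rfl
    · intro h8
      rcases h8 with h8 | h8
      · exact absurd h7.1 (not_lt.mpr h8)
      · exact h8 h7.2
  have hv : ∀ p ∈ (prs (nz K) P).filter (fun p => ¬ p ∣ DE fe u),
      0 ≤ 1 - v1 W P0 vq u p ∧ 1 - v1 W P0 vq u p ≤ 1 := by
    intro p hp
    unfold prs at hp
    simp only [Finset.mem_filter, Finset.mem_Ioc] at hp
    have h1 : FD.N0 < p := Pool.Agent.AQ.PENK.nz_N hp.1.1.1
    have h2 := v1_mem W hW P0 vq u hp.1.2 h1
    constructor <;> linarith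
  have r4 : ∏ p ∈ (prs (nz K) P).filter (fun p => ¬ p ∣ DE fe u), (1 - v1 W P0 vq u p) ≤
      ∏ p ∈ ((prs ps P).filter (fun p => ¬ p ∣ m)).filter (fun p => ¬ p ∣ DE fe u),
        Ph W P0 fe vq u p := by
    have s1 : ((prs ps P).filter (fun p => ¬ p ∣ m)).filter (fun p => ¬ p ∣ DE fe u) ⊆
        (prs (nz K) P).filter (fun p => ¬ p ∣ DE fe u) := by
      intro p hp
      unfold prs at hp ⊢
      simp only [Finset.mem_filter, Finset.mem_Ioc] at hp ⊢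
      refine ⟨⟨⟨by omega, hp.1.1.1.2⟩, hp.1.1.2⟩, hp.2⟩
    have s2 : ∏ p ∈ ((prs ps P).filter (fun p => ¬ p ∣ m)).filter (fun p => ¬ p ∣ DE fe u),
        Ph W P0 fe vq u p =
        ∏ p ∈ ((prs ps P).filter (fun p => ¬ p ∣ m)).filter (fun p => ¬ p ∣ DE fe u),
          (1 - v1 W P0 vq u p) := by
      apply Finset.prod_congr rfl
      intro p hp
      rw [Finset.mem_filter] at hp
      unfold Ph
      rw [if_neg hp.2]
    rw [s2, ← Finset.prod_sdiff s1]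
    have s3 : ∏ p ∈ (prs (nz K) P).filter (fun p => ¬ p ∣ DE fe u) \
        ((prs ps P).filter (fun p => ¬ p ∣ m)).filter (fun p => ¬ p ∣ DE fe u),
        (1 - v1 W P0 vq u p) ≤ 1 := by
      apply Finset.prod_le_one
      · intro p hp
        exact (hv p (Finset.mem_sdiff.mp hp).1).1
      · intro p hp
        exact (hv p (Finset.mem_sdiff.mp hp).1).2
    have s4 : 0 ≤ ∏ p ∈ ((prs ps P).filter (fun p => ¬ p ∣ m)).filter
        (fun p => ¬ p ∣ DE fe u), (1 - v1 W P0 vq u p) := by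
      apply Finset.prod_nonneg
      intro p hp
      exact (hv p (s1 hp)).1
    exact mul_le_of_le_one_left s4 s3
  have r5 : 0 ≤ ∏ p ∈ (prs (nz K) P).filter (fun p => ¬ p ∣ DE fe u),
      (1 - v1 W P0 vq u p) := by
    apply Finset.prod_nonneg
    intro p hp
    exact (hv p hp).1
  rw [e1, e2, r1, r2, r3]
  obtain ⟨A, hA⟩ : ∃ A, A = ∏ p ∈ (DE fe u).primeFactors.filter (fun p => P < p), h p := ⟨_, rfl⟩
  obtain ⟨B, hB⟩ : ∃ B, B = ∏ p ∈ (DE fe u).primeFactors.filter (fun p => ¬ P < p), h p :=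
    ⟨_, rfl⟩
  obtain ⟨V, hV⟩ : ∃ V, V = ∏ p ∈ (prs (nz K) P).filter (fun p => ¬ p ∣ DE fe u),
      (1 - v1 W P0 vq u p) := ⟨_, rfl⟩
  obtain ⟨V', hV'⟩ : ∃ V', V' = ∏ p ∈ ((prs ps P).filter (fun p => ¬ p ∣ m)).filter
      (fun p => ¬ p ∣ DE fe u), Ph W P0 fe vq u p := ⟨_, rfl⟩
  rw [← hA] at e3
  rw [← hV] at r4 r5
  rw [← hV'] at r4
  rw [← hA, ← hB, ← hV, ← hV']
  have hB0 : 0 ≤ B := by
    rw [hB]
    exact Finset.prod_nonneg (fun p _ => hh0 p)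
  have hDi : 0 ≤ 1 / (DE fe u : ℝ) := by positivity
  have t1 : A * V ≤ (2 : ℝ) ^ (1 / τ) * V' :=
    mul_le_mul e3 r4 r5 (by positivity)
  have t2 : (B * (1 / (DE fe u : ℝ))) * (A * V) ≤
      (B * (1 / (DE fe u : ℝ))) * ((2 : ℝ) ^ (1 / τ) * V') :=
    mul_le_mul_of_nonneg_left t1 (mul_nonneg hB0 hDi)
  have t3 : A * B * (1 / (DE fe u : ℝ)) * V = (B * (1 / (DE fe u : ℝ))) * (A * V) := by ring
  have t4 : (2 : ℝ) ^ (1 / τ) / (DE fe u : ℝ) * (B * V') =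
      (B * (1 / (DE fe u : ℝ))) * ((2 : ℝ) ^ (1 / τ) * V') := by ring
  rw [t3, t4]
  exact t2


end Pool.Agent.AQ.PFM

namespace Pool.Agent.AQ.PFM

theorem w1_le : type_of% @w1_le_pr := @w1_le_pr

end Pool.Agent.AQ.PFM
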