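import Pool.Agent.Lib_helper15.AQ.PFM.Defs
import Pool.Agent.Lib_helper8.PENT.ZS
import Pool.Agent.Lib_helper68.LEV.MRT
import Pool.Agent.Lib_helper15.PFMF.F7


set_option autoImplicit false

namespace Pool.Agent.AQ.PFM

open Finset Pool.Agent.PENT
open Pool.Agent.PENK (PolyK Bas nr dl Rf Wts prs ind lw PerV PerP mL EquiF ich L1)
open Pool.Agent.PFM (DE ph LocS Bo Un)
open Pool.Agent.AQ.PENK (FD VV mV EQQ Sp nz)

variable [FD]

/-- the sum of `1/p` over the primes `p ≤ z` with `p % 4 ≠ 3` -/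
noncomputable def f7_S (z : ℕ) : ℝ := ∑ p ∈ (prs 0 z).filter (fun p => ¬ ¬ Sp p), 1 / (p : ℝ)

/-- the sum of `1/p` over the primes `p ≤ z` with `¬ Sp p` -/
noncomputable def f7_R (z : ℕ) : ℝ := ∑ p ∈ (prs 0 z).filter (fun p => ¬ Sp p), 1 / (p : ℝ)

theorem f7_mem {a b p : ℕ} : p ∈ prs a b ↔ (a < p ∧ p ≤ b) ∧ p.Prime := by
  unfold prs
  rw [mem_filter, mem_Ioc]

open Classical in
theorem f7_S_eq (z : ℕ) : f7_S z = ∑ p ∈ (Finset.Icc 1 ⌊(z : ℝ)⌋₊).filter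
    (fun p => p.Prime ∧ IsSquare ((-FD.D : ℤ) : ZMod p)), 1 / (p : ℝ) := by
  unfold f7_S
  refine Finset.sum_congr ?_ fun _ _ => rfl
  ext p
  rw [mem_filter, f7_mem, mem_filter, mem_Icc, Nat.floor_natCast, not_not]
  constructor
  · rintro ⟨⟨⟨h1, h2⟩, h3⟩, h4⟩
    exact ⟨⟨h1, h2⟩, h3, h4⟩
  · rintro ⟨⟨h1, h2⟩, h3, h4⟩
    exact ⟨⟨⟨h1, h2⟩, h3⟩, h4⟩

theorem f7_SR (z : ℕ) : f7_S z + f7_R z =
    ∑ p ∈ (Finset.Icc 1 ⌊(z : ℝ)⌋₊).filter Nat.Prime, 1 / (p : ℝ) := by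
  unfold f7_S f7_R
  rw [add_comm, Finset.sum_filter_add_sum_filter_not]
  apply Finset.sum_congr _ fun _ _ => rfl
  ext p
  rw [f7_mem, mem_filter, mem_Icc, Nat.floor_natCast]
  constructor
  · rintro ⟨⟨h1, h2⟩, h3⟩
    exact ⟨⟨h1, h2⟩, h3⟩
  · rintro ⟨⟨h1, h2⟩, h3⟩
    exact ⟨⟨h1, h2⟩, h3⟩

theorem f7_mert : ∃ C : ℝ, 0 ≤ C ∧ ∀ z : ℕ, 2 ≤ z →
    |f7_S z - 1 / 2 * Real.log (Real.log z)| ≤ C ∧
      1 / 2 * Real.log (Real.log z) - C ≤ f7_R z := by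
  obtain ⟨C1, h1⟩ := FD.mt
  obtain ⟨C2, h2⟩ := Pool.Agent.LEV.mertens_two
  refine ⟨|C1| + |C2| + 1, by positivity, fun z hz => ?_⟩
  have hz' : (2 : ℝ) ≤ z := by exact_mod_cast hz
  have a1 := abs_le.1 (h1 z hz')
  have a2 := abs_le.1 (h2 z hz')
  have a3 := f7_S_eq z
  have a7 := le_abs_self C1
  have a8 := abs_nonneg C1
  have a4 := f7_SR z
  have a5 := le_abs_self C2
  have a6 := abs_nonneg C2
  constructor
  · rw [abs_le]
    constructor <;> linarith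
  · linarith

variable {K : ℕ} [NeZero K]

theorem f7_bd (W : Wts K) (hW : W.Ok) (fe vq : Finset (Fin K)) (P0 p : ℕ) :
    0 ≤ bd fe vq W P0 p ∧ bd fe vq W P0 p ≤ (fe.card : ℝ) + 2 * (vq.card : ℝ) := by
  have h1 : 0 ≤ ∑ j ∈ fe, (1 - 2 * W.al j) :=
    sum_nonneg fun j _ => by linarith [hW.al1 j]
  have h1' : ∑ j ∈ fe, (1 - 2 * W.al j) ≤ (fe.card : ℝ) := by
    calc _ ≤ ∑ j ∈ fe, (1 : ℝ) := sum_le_sum fun j _ => by linarith [hW.al0 j]
      _ = _ := by simp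
  have h2 : 0 ≤ ∑ i ∈ vq, (1 - W.be i) := sum_nonneg fun j _ => by linarith [hW.be1 j]
  have h2' : ∑ i ∈ vq, (1 - W.be i) ≤ (vq.card : ℝ) := by
    calc _ ≤ ∑ j ∈ vq, (1 : ℝ) := sum_le_sum fun j _ => by linarith [hW.be0 j]
      _ = _ := by simp
  have h3 : 0 ≤ ∑ i ∈ vq, (1 - W.bo i) := sum_nonneg fun j _ => by linarith [hW.bo1 j]
  have h3' : ∑ i ∈ vq, (1 - W.bo i) ≤ (vq.card : ℝ) := by
    calc _ ≤ ∑ j ∈ vq, (1 : ℝ) := sum_le_sum fun j _ => by linarith [hW.bo0 j]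
      _ = _ := by simp
  have h4 : (0 : ℝ) ≤ fe.card := Nat.cast_nonneg _
  unfold bd
  split_ifs <;> constructor <;> linarith

/-- the whole sum -/
theorem f7_sum (W : Wts K) (fe vq : Finset (Fin K)) {P0 P : ℕ} (h : P0 ≤ P) :
    ∑ p ∈ prs 0 P, bd fe vq W P0 p * (1 / (p : ℝ)) =
      (fe.card : ℝ) * f7_R P + ((fe.card : ℝ) + 2 * ∑ i ∈ vq, (1 - W.bo i)) * f7_S P0 +
        (∑ j ∈ fe, (1 - 2 * W.al j) + 2 * ∑ i ∈ vq, (1 - W.be i)) * (f7_S P - f7_S P0) := by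
  have e0 : prs 0 P0 ⊆ prs 0 P := by
    intro p hp
    rw [f7_mem] at hp ⊢
    exact ⟨⟨hp.1.1, hp.1.2.trans h⟩, hp.2⟩
  have e1 : f7_S P0 = ∑ p ∈ (prs 0 P).filter (fun p => ¬ ¬ Sp p),
      if p ≤ P0 then 1 / (p : ℝ) else 0 := by
    unfold f7_S
    rw [← sum_filter]
    apply sum_congr _ fun _ _ => rfl
    ext p
    simp only [mem_filter, f7_mem]
    constructor
    · rintro ⟨⟨⟨a1, a2⟩, a3⟩, a4⟩
      exact ⟨⟨⟨⟨a1, a2.trans h⟩, a3⟩, a4⟩, a2⟩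
    · rintro ⟨⟨⟨⟨a1, a2⟩, a3⟩, a4⟩, a5⟩
      exact ⟨⟨⟨a1, a5⟩, a3⟩, a4⟩
  obtain ⟨A1, hA1⟩ : ∃ A, A = (fe.card : ℝ) + 2 * ∑ i ∈ vq, (1 - W.bo i) := ⟨_, rfl⟩
  obtain ⟨A2, hA2⟩ : ∃ A, A = ∑ j ∈ fe, (1 - 2 * W.al j) + 2 * ∑ i ∈ vq, (1 - W.be i) := ⟨_, rfl⟩
  rw [← Finset.sum_filter_add_sum_filter_not (prs 0 P) (fun p => ¬ Sp p)]
  rw [e1, ← hA1, ← hA2]
  unfold f7_S f7_R
  rw [← sum_sub_distrib, mul_sum, mul_sum, mul_sum, add_assoc, ← sum_add_distrib]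
  congr 1
  · apply sum_congr rfl
    intro p hp
    rw [mem_filter] at hp
    unfold bd
    rw [if_pos hp.2]
  · apply sum_congr rfl
    intro p hp
    rw [mem_filter] at hp
    unfold bd
    rw [if_neg hp.2, ← hA1, ← hA2]
    split_ifs <;> ring

/-- the sum of `1/p` over the prime divisors of `m` -/
theorem f7_div {P0 m : ℕ} (h3 : 3 ≤ P0) (hm : 0 < m) (hp : ∀ p : ℕ, p.Prime → p ∣ m → P0 < p)
    (hl : Real.log m ≤ P0) (P : ℕ) :
    ∑ p ∈ (prs 0 P).filter (fun p => p ∣ m), 1 / (p : ℝ) ≤ 2 := by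
  have hP0 : (0 : ℝ) < P0 := by
    have : 0 < P0 := by omega
    exact_mod_cast this
  have e1 : (prs 0 P).filter (fun p => p ∣ m) ⊆ m.primeFactors := by
    intro p h
    rw [mem_filter, f7_mem] at h
    exact Nat.mem_primeFactors.2 ⟨h.1.2, h.2, hm.ne'⟩
  have e2 : ∑ p ∈ (prs 0 P).filter (fun p => p ∣ m), 1 / (p : ℝ) ≤
      ∑ p ∈ m.primeFactors, 1 / (P0 : ℝ) := by
    calc _ ≤ ∑ p ∈ m.primeFactors, 1 / (p : ℝ) :=
          sum_le_sum_of_subset_of_nonneg e1 fun p _ _ => by positivity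
      _ ≤ _ := by
        apply sum_le_sum
        intro p h
        rw [Nat.mem_primeFactors] at h
        have := hp p h.1 h.2.1
        apply one_div_le_one_div_of_le hP0
        exact_mod_cast this.le
  have e3 : (2 : ℝ) ^ m.primeFactors.card ≤ m := by
    have h1 : ∏ p ∈ m.primeFactors, 2 ≤ ∏ p ∈ m.primeFactors, p :=
      prod_le_prod' fun p h => (Nat.prime_of_mem_primeFactors h).two_le
    rw [prod_const] at h1
    have h2 := Nat.le_of_dvd hm (Nat.prod_primeFactors_dvd m)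
    exact_mod_cast h1.trans h2
  have e4 : (m.primeFactors.card : ℝ) * Real.log 2 ≤ P0 := by
    have h1 := Real.log_le_log (by positivity) e3
    rw [Real.log_pow] at h1
    linarith
  have e5 : (m.primeFactors.card : ℝ) ≤ 2 * P0 := by
    have h1 := Real.log_two_gt_d9
    have h2 : (0 : ℝ) ≤ m.primeFactors.card := Nat.cast_nonneg _
    nlinarith
  refine e2.trans ?_
  rw [sum_const, nsmul_eq_mul, mul_one_div, div_le_iff₀ hP0]
  exact e5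

theorem f7_sq0 (N : ℕ) : ∑ n ∈ Finset.Icc 1 (N + 1), 1 / (n : ℝ) ^ 2 ≤ 2 - 1 / ((N : ℝ) + 1) := by
  induction N with
  | zero => norm_num
  | succ N ih =>
    rw [sum_Icc_succ_top (by omega)]
    have h1 : (0 : ℝ) < (N : ℝ) + 1 := by positivity
    have h2 : (0 : ℝ) < (N : ℝ) + 2 := by positivity
    have h3 : 1 / (((N + 1 + 1 : ℕ) : ℝ)) ^ 2 ≤ 1 / ((N : ℝ) + 1) - 1 / ((N : ℝ) + 2) := by
      push_cast
      rw [show (N : ℝ) + 1 + 1 = N + 2 by ring, div_sub_div _ _ h1.ne' h2.ne',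
        div_le_div_iff₀ (by positivity) (by positivity)]
      nlinarith
    have h4 : ((N + 1 : ℕ) : ℝ) + 1 = N + 2 := by push_cast; ring
    rw [h4]
    linarith

theorem f7_sq (a b : ℕ) : ∑ p ∈ prs a b, 1 / (p : ℝ) ^ 2 ≤ 2 := by
  have h1 : prs a b ⊆ Finset.Icc 1 (b + 1) := by
    intro p hp
    rw [f7_mem] at hp
    rw [mem_Icc]
    omega
  refine (sum_le_sum_of_subset_of_nonneg h1 fun p _ _ => by positivity).trans ?_
  have h2 := f7_sq0 b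
  have h3 : 0 ≤ 1 / ((b : ℝ) + 1) := by positivity
  linarith

theorem f7_ps (ps : ℕ) : ∑ p ∈ prs 0 ps, 1 / (p : ℝ) ≤ ps := by
  have h1 : prs 0 ps ⊆ Finset.Icc 1 ps := by
    intro p hp
    rw [f7_mem] at hp
    rw [mem_Icc]
    omega
  calc _ ≤ ∑ p ∈ Finset.Icc 1 ps, 1 / (p : ℝ) :=
        sum_le_sum_of_subset_of_nonneg h1 fun p _ _ => by positivity
    _ ≤ ∑ p ∈ Finset.Icc 1 ps, (1 : ℝ) := by
        apply sum_le_sum
        intro p hp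
        rw [mem_Icc] at hp
        rw [div_le_one (by exact_mod_cast hp.1)]
        exact_mod_cast hp.1
    _ = ps := by simp

/-- block F7 -/
theorem bd_prod_pr (W : Wts K) (hW : W.Ok) (fe vq : Finset (Fin K)) (ps : ℕ) (C1 : ℝ) (hC1 : 0 ≤ C1) :
    ∃ C : ℝ, 0 ≤ C ∧ ∀ P0 P : ℕ, ps ≤ P0 → 3 ≤ P0 → P0 ≤ P → ∀ m : ℕ, 0 < m →
      (∀ p : ℕ, p.Prime → p ∣ m → P0 < p) → Real.log m ≤ P0 →
      (∀ p ∈ (prs ps P).filter (fun p => ¬ p ∣ m),
        1 / 4 ≤ 1 - bd fe vq W P0 p / p + C1 / (p : ℝ) ^ 2) →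
      ∏ p ∈ (prs ps P).filter (fun p => ¬ p ∣ m),
        (1 - bd fe vq W P0 p / p + C1 / (p : ℝ) ^ 2) ≤
      C * Real.log P ^ (-(fe.card : ℝ) + ∑ j ∈ fe, W.al j - ∑ i ∈ vq, (1 - W.be i)) *
        Real.log P0 ^ (∑ i ∈ vq, (1 - W.be i) - ∑ i ∈ vq, (1 - W.bo i) - ∑ j ∈ fe, W.al j) := by
  obtain ⟨Cm, hCm, hmert⟩ := f7_mert
  set F : ℝ := (fe.card : ℝ) with hF
  set SA : ℝ := ∑ j ∈ fe, W.al j with hSA
  set B : ℝ := ∑ i ∈ vq, (1 - W.be i) with hB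
  set Bo : ℝ := ∑ i ∈ vq, (1 - W.bo i) with hBo
  set M : ℝ := F + 2 * (vq.card : ℝ) with hM
  have hF0 : 0 ≤ F := Nat.cast_nonneg _
  have hM0 : 0 ≤ M := by positivity
  have hB0 : 0 ≤ B := sum_nonneg fun j _ => by linarith [hW.be1 j]
  have hBo0 : 0 ≤ Bo := sum_nonneg fun j _ => by linarith [hW.bo1 j]
  have hA : ∑ j ∈ fe, (1 - 2 * W.al j) = F - 2 * SA := by
    rw [sum_sub_distrib, ← mul_sum]
    simp [hF, hSA]
  have hA0 : 0 ≤ F - 2 * SA := by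
    rw [← hA]
    exact sum_nonneg fun j _ => by linarith [hW.al1 j]
  set D : ℝ := F * Cm + (F + 2 * Bo) * Cm + (F - 2 * SA + 2 * B) * (2 * Cm) + M * ps + M * 2 +
    C1 * 2 with hD
  refine ⟨Real.exp D, (Real.exp_pos _).le, ?_⟩
  intro P0 P hps h3 hPP m hm hmp hlm hq
  set T := (prs ps P).filter (fun p => ¬ p ∣ m) with hT
  have hlP0 : 0 < Real.log P0 := Real.log_pos (by exact_mod_cast (by omega : 1 < P0))
  have hlP : 0 < Real.log P := Real.log_pos (by exact_mod_cast (by omega : 1 < P))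
  -- the pointwise bound
  have k1 : ∏ p ∈ T, (1 - bd fe vq W P0 p / p + C1 / (p : ℝ) ^ 2) ≤
      Real.exp (∑ p ∈ T, (-(bd fe vq W P0 p * (1 / (p : ℝ))) + C1 * (1 / (p : ℝ) ^ 2))) := by
    rw [Real.exp_sum]
    apply prod_le_prod
    · intro p hp
      have := hq p hp
      linarith
    · intro p _
      have := Real.add_one_le_exp (-(bd fe vq W P0 p * (1 / (p : ℝ))) + C1 * (1 / (p : ℝ) ^ 2))
      refine le_trans (le_of_eq ?_) this
      ring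
  -- the sum
  have k2 : ∑ p ∈ T, C1 * (1 / (p : ℝ) ^ 2) ≤ C1 * 2 := by
    rw [← mul_sum]
    apply mul_le_mul_of_nonneg_left _ hC1
    refine le_trans ?_ (f7_sq ps P)
    exact sum_le_sum_of_subset_of_nonneg (filter_subset _ _) fun p _ _ => by positivity
  have k3 : ∑ p ∈ prs 0 P, bd fe vq W P0 p * (1 / (p : ℝ)) ≤
      ∑ p ∈ T, bd fe vq W P0 p * (1 / (p : ℝ)) + M * ps + M * 2 := by
    have a1 : ∑ p ∈ prs 0 P, bd fe vq W P0 p * (1 / (p : ℝ)) ≤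
        ∑ p ∈ prs 0 P, ((if p ∈ T then bd fe vq W P0 p * (1 / (p : ℝ)) else 0) +
          (if p ≤ ps then M * (1 / (p : ℝ)) else 0) +
          (if p ∣ m then M * (1 / (p : ℝ)) else 0)) := by
      apply sum_le_sum
      intro p hp
      obtain ⟨b1, b2⟩ := f7_bd W hW fe vq P0 p
      have c0 : (0 : ℝ) ≤ 1 / (p : ℝ) := by positivity
      have c1 : bd fe vq W P0 p * (1 / (p : ℝ)) ≤ M * (1 / (p : ℝ)) :=
        mul_le_mul_of_nonneg_right b2 c0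
      have c2 : 0 ≤ bd fe vq W P0 p * (1 / (p : ℝ)) := mul_nonneg b1 c0
      have c3 : 0 ≤ M * (1 / (p : ℝ)) := mul_nonneg hM0 c0
      by_cases g1 : p ≤ ps
      · by_cases g2 : p ∣ m <;> by_cases g3 : p ∈ T <;> simp only [g1, g2, g3, if_true, if_false] <;>
          linarith
      · by_cases g2 : p ∣ m
        · by_cases g3 : p ∈ T <;> simp only [g1, g2, g3, if_true, if_false] <;> linarith
        · have g3 : p ∈ T := by
            rw [hT, mem_filter, f7_mem]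
            rw [f7_mem] at hp
            exact ⟨⟨⟨not_le.1 g1, hp.1.2⟩, hp.2⟩, g2⟩
          simp only [g1, g2, g3, if_true, if_false]
          linarith
    rw [sum_add_distrib, sum_add_distrib, ← sum_filter, ← sum_filter, ← sum_filter] at a1
    have a2 : (prs 0 P).filter (fun p => p ∈ T) ⊆ T := by
      intro p hp
      exact (mem_filter.1 hp).2
    have a3 : ∑ p ∈ (prs 0 P).filter (fun p => p ∈ T), bd fe vq W P0 p * (1 / (p : ℝ)) ≤
        ∑ p ∈ T, bd fe vq W P0 p * (1 / (p : ℝ)) :=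
      sum_le_sum_of_subset_of_nonneg a2 fun p _ _ =>
        mul_nonneg (f7_bd W hW fe vq P0 p).1 (by positivity)
    have a4 : ∑ p ∈ (prs 0 P).filter (fun p => p ≤ ps), M * (1 / (p : ℝ)) ≤ M * ps := by
      rw [← mul_sum]
      apply mul_le_mul_of_nonneg_left _ hM0
      refine le_trans ?_ (f7_ps ps)
      apply sum_le_sum_of_subset_of_nonneg
      · intro p hp
        rw [mem_filter, f7_mem] at hp
        rw [f7_mem]
        exact ⟨⟨hp.1.1.1, hp.2⟩, hp.1.2⟩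
      · intro p _ _
        positivity
    have a5 : ∑ p ∈ (prs 0 P).filter (fun p => p ∣ m), M * (1 / (p : ℝ)) ≤ M * 2 := by
      rw [← mul_sum]
      exact mul_le_mul_of_nonneg_left (f7_div h3 hm hmp hlm P) hM0
    linarith
  have k4 := f7_sum W fe vq hPP
  rw [hA] at k4
  obtain ⟨m1, m2⟩ := hmert P (by omega)
  obtain ⟨m3, _⟩ := hmert P0 (by omega)
  rw [abs_le] at m1 m3
  set LP : ℝ := Real.log (Real.log P) with hLP
  set L0 : ℝ := Real.log (Real.log P0) with hL0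
  have k5 : F * (1 / 2 * LP - Cm) ≤ F * f7_R P := mul_le_mul_of_nonneg_left m2 hF0
  have k6 : (F + 2 * Bo) * (1 / 2 * L0 - Cm) ≤ (F + 2 * Bo) * f7_S P0 :=
    mul_le_mul_of_nonneg_left (by linarith) (by positivity)
  have k7 : (F - 2 * SA + 2 * B) * (1 / 2 * LP - 1 / 2 * L0 - 2 * Cm) ≤
      (F - 2 * SA + 2 * B) * (f7_S P - f7_S P0) :=
    mul_le_mul_of_nonneg_left (by linarith) (by positivity)
  have k8 : ∑ p ∈ T, (-(bd fe vq W P0 p * (1 / (p : ℝ))) + C1 * (1 / (p : ℝ) ^ 2)) ≤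
      D + LP * (-F + SA - B) + L0 * (B - Bo - SA) := by
    rw [sum_add_distrib, sum_neg_distrib]
    rw [hD]
    linarith
  refine k1.trans ((Real.exp_le_exp.2 k8).trans (le_of_eq ?_))
  rw [Real.exp_add, Real.exp_add, Real.rpow_def_of_pos hlP, Real.rpow_def_of_pos hlP0]


end Pool.Agent.AQ.PFM

namespace Pool.Agent.AQ.PFM

theorem bd_prod : type_of% @bd_prod_pr := @bd_prod_pr

end Pool.Agent.AQ.PFM
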